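import Mathlib

/-!
Orbits of triples in a finite commutative group under scaling and permutation, and the
counting of good sets of orbits.
-/

set_option autoImplicit false

namespace Run7.h83.HF

open Finset

/-! ### Sets of orbits avoiding pairs -/

theorem bad_card {O B : Type*} [Fintype O] [DecidableEq O] [DecidableEq B] (o1 o2 : B → O)
    (U : Finset B)
    (hU : ∀ u ∈ U, ∀ v ∈ U, u ≠ v → o1 u ≠ o1 v ∧ o1 u ≠ o2 v ∧ o2 u ≠ o1 v ∧ o2 u ≠ o2 v) :
    (univ.filter (fun T : Finset O => ∀ u ∈ U, ¬ (o1 u ∈ T ∧ o2 u ∈ T))).card * 4 ^ U.card ≤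
      3 ^ U.card * 2 ^ Fintype.card O := by
  induction U using Finset.induction_on with
  | empty => simp
  | insert u U hu ih =>
    have ih' := ih (fun a ha b hb hab => hU a (mem_insert_of_mem ha) b (mem_insert_of_mem hb) hab)
    set B' := univ.filter (fun T : Finset O => ∀ v ∈ U, ¬ (o1 v ∈ T ∧ o2 v ∈ T)) with hB'
    set B1 := univ.filter (fun T : Finset O => ∀ v ∈ insert u U, ¬ (o1 v ∈ T ∧ o2 v ∈ T)) with hB1
    have h1 : B1 = B'.filter (fun T => ¬ (o1 u ∈ T ∧ o2 u ∈ T)) := by
      ext T
      simp only [hB1, hB', mem_filter, mem_univ, true_and, forall_mem_insert]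
      tauto
    set B11 := B'.filter (fun T => o1 u ∈ T ∧ o2 u ∈ T) with hB11
    have h2 : B11.card + B1.card = B'.card := by
      rw [h1, hB11]
      exact Finset.card_filter_add_card_filter_not _
    have h3 : B1.card ≤ 3 * B11.card := by
      apply Finset.card_le_mul_card_image_of_maps_to
        (f := fun T => insert (o1 u) (insert (o2 u) T))
      · intro T hT
        rw [h1, mem_filter] at hT
        rw [hB11, mem_filter, hB', mem_filter]
        have hT' := hT.1
        rw [hB', mem_filter] at hT'
        refine ⟨⟨mem_univ _, ?_⟩, ?_, ?_⟩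
        · intro v hv
          have hne : u ≠ v := by
            rintro rfl
            exact hu hv
          obtain ⟨e1, e2, e3, e4⟩ := hU u (mem_insert_self _ _) v (mem_insert_of_mem hv) hne
          intro hcon
          apply hT'.2 v hv
          constructor
          · have := hcon.1
            rw [mem_insert, mem_insert] at this
            rcases this with h | h | h
            · exact absurd h.symm e1
            · exact absurd h.symm e3
            · exact h
          · have := hcon.2
            rw [mem_insert, mem_insert] at this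
            rcases this with h | h | h
            · exact absurd h.symm e2
            · exact absurd h.symm e4
            · exact h
        · exact mem_insert_self _ _
        · exact mem_insert_of_mem (mem_insert_self _ _)
      · intro R hR
        calc _ ≤ ({R.erase (o1 u), R.erase (o2 u), (R.erase (o1 u)).erase (o2 u)} :
              Finset (Finset O)).card := by
              apply Finset.card_le_card
              intro T hT
              rw [mem_filter, h1, mem_filter] at hT
              obtain ⟨⟨_, hnot⟩, hR⟩ := hT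
              simp only [mem_insert, mem_singleton]
              by_cases ha : o1 u ∈ T
              · have hb : o2 u ∉ T := fun hb => hnot ⟨ha, hb⟩
                right; left
                rw [← hR]
                ext x
                simp only [mem_erase, mem_insert]
                constructor
                · intro hx
                  refine ⟨?_, Or.inr (Or.inr hx)⟩
                  rintro rfl
                  exact hb hx
                · rintro ⟨hx, rfl | rfl | hx'⟩
                  · exact ha
                  · exact absurd rfl hx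
                  · exact hx'
              · by_cases hb : o2 u ∈ T
                · left
                  rw [← hR]
                  ext x
                  simp only [mem_erase, mem_insert]
                  constructor
                  · intro hx
                    refine ⟨?_, Or.inr (Or.inr hx)⟩
                    rintro rfl
                    exact ha hx
                  · rintro ⟨hx, rfl | rfl | hx'⟩
                    · exact absurd rfl hx
                    · exact hb
                    · exact hx'
                · right; right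
                  rw [← hR]
                  ext x
                  simp only [mem_erase, mem_insert]
                  constructor
                  · intro hx
                    refine ⟨?_, ?_, Or.inr (Or.inr hx)⟩
                    · rintro rfl
                      exact hb hx
                    · rintro rfl
                      exact ha hx
                  · rintro ⟨hx, hx', rfl | rfl | hx''⟩
                    · exact absurd rfl hx'
                    · exact absurd rfl hx
                    · exact hx''
          _ ≤ 3 := Finset.card_le_three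
    rw [card_insert_of_notMem hu, pow_succ, pow_succ]
    have h4 : B1.card * 4 ≤ 3 * B'.card := by omega
    calc B1.card * (4 ^ U.card * 4) = (B1.card * 4) * 4 ^ U.card := by ring
      _ ≤ (3 * B'.card) * 4 ^ U.card := Nat.mul_le_mul_right _ h4
      _ = 3 * (B'.card * 4 ^ U.card) := by ring
      _ ≤ 3 * (3 ^ U.card * 2 ^ Fintype.card O) := Nat.mul_le_mul_left _ ih'
      _ = _ := by ring

theorem exists_disjoint {O B : Type*} [DecidableEq O] [Fintype B] [DecidableEq B] (o1 o2 : B → O)
    (h1 : ∀ o, (univ.filter (fun u => o1 u = o)).card ≤ 6)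
    (h2 : ∀ o, (univ.filter (fun u => o2 u = o)).card ≤ 6) :
    ∃ U : Finset B, (∀ u ∈ U, ∀ v ∈ U, u ≠ v → o1 u ≠ o1 v ∧ o1 u ≠ o2 v ∧ o2 u ≠ o1 v ∧
      o2 u ≠ o2 v) ∧ Fintype.card B ≤ 24 * U.card := by
  classical
  let S : Finset (Finset B) := univ.filter (fun U => ∀ u ∈ U, ∀ v ∈ U, u ≠ v →
    o1 u ≠ o1 v ∧ o1 u ≠ o2 v ∧ o2 u ≠ o1 v ∧ o2 u ≠ o2 v)
  have hS : S.Nonempty := ⟨∅, by simp [S]⟩
  obtain ⟨U, hUS, hmax⟩ := Finset.exists_max_image S Finset.card hS
  have hU : ∀ u ∈ U, ∀ v ∈ U, u ≠ v →
    o1 u ≠ o1 v ∧ o1 u ≠ o2 v ∧ o2 u ≠ o1 v ∧ o2 u ≠ o2 v := by simpa [S] using hUS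
  refine ⟨U, hU, ?_⟩
  have hcov : ∀ v : B, ∃ u ∈ U, (o1 v = o1 u ∨ o2 v = o1 u ∨ o1 v = o2 u ∨ o2 v = o2 u) := by
    intro v
    by_contra hcon
    push Not at hcon
    have hv : v ∉ U := by
      intro hv
      exact (hcon v hv).1 rfl
    have hins : insert v U ∈ S := by
      simp only [S, mem_filter, mem_univ, true_and, forall_mem_insert]
      refine ⟨⟨fun h => absurd rfl h, ?_⟩, ?_⟩
      · intro w hw _
        obtain ⟨c1, c2, c3, c4⟩ := hcon w hw
        exact ⟨c1, c3, c2, c4⟩
      · intro w hw
        obtain ⟨c1, c2, c3, c4⟩ := hcon w hw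
        exact ⟨fun _ => ⟨c1.symm, c2.symm, c3.symm, c4.symm⟩, fun x hx hwx => hU w hw x hx hwx⟩
    have := hmax _ hins
    rw [card_insert_of_notMem hv] at this
    omega
  have hsub : (univ : Finset B) ⊆ U.biUnion (fun u =>
      (univ.filter (fun v => o1 v = o1 u) ∪ univ.filter (fun v => o2 v = o1 u)) ∪
      (univ.filter (fun v => o1 v = o2 u) ∪ univ.filter (fun v => o2 v = o2 u))) := by
    intro v _
    obtain ⟨u, hu, h⟩ := hcov v
    simp only [mem_biUnion, mem_union, mem_filter, mem_univ, true_and]
    exact ⟨u, hu, by tauto⟩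
  calc Fintype.card B = (univ : Finset B).card := rfl
    _ ≤ _ := Finset.card_le_card hsub
    _ ≤ U.card * 24 := by
      apply Finset.card_biUnion_le_card_mul
      intro u _
      refine (Finset.card_union_le _ _).trans ?_
      have a1 := Finset.card_union_le (univ.filter (fun v => o1 v = o1 u))
        (univ.filter (fun v => o2 v = o1 u))
      have a2 := Finset.card_union_le (univ.filter (fun v => o1 v = o2 u))
        (univ.filter (fun v => o2 v = o2 u))
      have b1 := h1 (o1 u)
      have b2 := h2 (o1 u)
      have b3 := h1 (o2 u)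
      have b4 := h2 (o2 u)
      omega
    _ = 24 * U.card := by ring

/-! ### Triples -/

/-- scaling and permutation -/
def tripSetoid (A : Type*) [CommGroup A] : Setoid (Fin 3 → A) where
  r t t' := ∃ σ : Equiv.Perm (Fin 3), ∃ c : A, ∀ i, t' i = c * t (σ i)
  iseqv := by
    refine ⟨fun t => ⟨1, 1, by simp⟩, ?_, ?_⟩
    · rintro t t' ⟨σ, c, h⟩
      refine ⟨σ⁻¹, c⁻¹, fun i => ?_⟩
      rw [h]
      simp
    · rintro t t' t'' ⟨σ, c, h⟩ ⟨τ, d, h'⟩
      refine ⟨σ * τ, d * c, fun i => ?_⟩
      rw [h', h]
      simp [mul_assoc]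

/-- the orbits -/
abbrev Orb (A : Type*) [CommGroup A] : Type _ := Quotient (tripSetoid A)

/-- orbit of a triple -/
def mk3 {A : Type*} [CommGroup A] (x y z : A) : Orb A := Quotient.mk (tripSetoid A) ![x, y, z]

section
variable {A : Type*} [CommGroup A]

theorem mk3_swap12 (x y z : A) : mk3 y x z = mk3 x y z := by
  apply Quotient.sound
  refine ⟨Equiv.swap 0 1, 1, fun i => ?_⟩
  fin_cases i
  · simp
  · simp
  · have : Equiv.swap (0 : Fin 3) 1 2 = 2 := by decide
    simp [this]

theorem mk3_swap23 (x y z : A) : mk3 x z y = mk3 x y z := by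
  apply Quotient.sound
  refine ⟨Equiv.swap 1 2, 1, fun i => ?_⟩
  fin_cases i
  · have : Equiv.swap (1 : Fin 3) 2 0 = 0 := by decide
    simp [this]
  · simp
  · simp

theorem mk3_smul (c x y z : A) : mk3 (c * x) (c * y) (c * z) = mk3 x y z := by
  apply Quotient.sound
  refine ⟨1, c⁻¹, fun i => ?_⟩
  fin_cases i <;> simp

theorem fiber_card [Fintype A] {B : Type*} [Fintype B] [DecidableEq (Orb A)]
    (F : B → Fin 3 → A) (hF : Function.Injective F) (j : Fin 3) (hj : ∀ u v, F u j = F v j)
    (o : Orb A) :
    (univ.filter (fun u => Quotient.mk (tripSetoid A) (F u) = o)).card ≤ 6 := by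
  classical
  rcases (univ.filter (fun u => Quotient.mk (tripSetoid A) (F u) = o)).eq_empty_or_nonempty
    with h | ⟨u0, hu0⟩
  · rw [h]; simp
  rw [mem_filter] at hu0
  let Φ : Equiv.Perm (Fin 3) → (Fin 3 → A) := fun σ i => F u0 j * (F u0 (σ j))⁻¹ * F u0 (σ i)
  have hsub : (univ.filter (fun u => Quotient.mk (tripSetoid A) (F u) = o)).image F ⊆
      univ.image Φ := by
    intro t ht
    obtain ⟨u, hu, rfl⟩ := mem_image.mp ht
    rw [mem_filter] at hu
    have hrel : (tripSetoid A).r (F u0) (F u) := by
      apply Quotient.exact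
      rw [hu0.2, hu.2]
    obtain ⟨σ, c, hc⟩ := hrel
    rw [mem_image]
    refine ⟨σ, mem_univ _, ?_⟩
    funext i
    simp only [Φ]
    have h1 := hc j
    have h2 := hj u u0
    rw [hc i, ← h2, h1]
    group
  calc _ = ((univ.filter (fun u => Quotient.mk (tripSetoid A) (F u) = o)).image F).card :=
        (Finset.card_image_of_injective _ hF).symm
    _ ≤ (univ.image Φ).card := Finset.card_le_card hsub
    _ ≤ (univ : Finset (Equiv.Perm (Fin 3))).card := Finset.card_image_le
    _ = 6 := by rw [Finset.card_univ, Fintype.card_perm]; rfl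

variable [Fintype A]

noncomputable instance : Fintype (Orb A) := by
  classical
  exact Fintype.ofFinite _

open Classical in
/-- number of orbits -/
theorem card_orb : Fintype.card A * Fintype.card A ≤ 6 * Fintype.card (Orb A) := by
  have h := Finset.card_le_mul_card_image (f := fun p : A × A => mk3 1 p.1 p.2) univ 6 (by
    intro o _
    exact fiber_card (fun p : A × A => ![1, p.1, p.2]) (by
      rintro ⟨a, b⟩ ⟨c, d⟩ h
      have h1 := congrFun h 1
      have h2 := congrFun h 2
      simp at h1 h2
      rw [h1, h2]) 0 (by intro u v; rfl) o)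
  rw [Finset.card_univ, Fintype.card_prod] at h
  exact h.trans (Nat.mul_le_mul_left _ (Finset.card_le_univ _))

open Classical in
/-- the orbits of `(1, ε, b)` -/
noncomputable def fullSet (ε : A) : Finset (Orb A) := univ.image (fun b : A => mk3 1 ε b)

open Classical in
theorem card_fullSet (ε : A) : Fintype.card A ≤ 6 * (fullSet ε).card := by
  have h := Finset.card_le_mul_card_image (f := fun b : A => mk3 1 ε b) univ 6 (by
    intro o _
    exact fiber_card (fun b : A => ![1, ε, b]) (by
      intro a b h
      have h2 := congrFun h 2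
      simpa using h2) 0 (by intro u v; rfl) o)
  rwa [Finset.card_univ] at h

/-- good sets of orbits -/
def Good (ε : A) (T : Finset (Orb A)) : Prop :=
  ∀ x y z w : A, ∃ u : A, mk3 x y (ε * u) ∈ T ∧ mk3 u z (ε * w) ∈ T

open Classical in
theorem bad_one (ε x y z w : A) :
    (univ.filter (fun T : Finset (Orb A) => ¬ ∃ u : A, mk3 x y (ε * u) ∈ T ∧
      mk3 u z (ε * w) ∈ T)).card * 4 ^ (Fintype.card A / 24) ≤
      3 ^ (Fintype.card A / 24) * 2 ^ Fintype.card (Orb A) := by
  obtain ⟨U, hU, hcard⟩ := exists_disjoint (fun u : A => mk3 x y (ε * u))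
    (fun u : A => mk3 u z (ε * w))
    (fun o => fiber_card (fun u : A => ![x, y, ε * u]) (by
      intro a b h
      have h2 := congrFun h 2
      simpa using h2) 0 (by intro u v; rfl) o)
    (fun o => fiber_card (fun u : A => ![u, z, ε * w]) (by
      intro a b h
      have h2 := congrFun h 0
      simpa using h2) 1 (by intro u v; rfl) o)
  have hk : Fintype.card A / 24 ≤ U.card := by omega
  obtain ⟨V, hVU, hV⟩ := Finset.exists_subset_card_eq hk
  have hb := bad_card (fun u : A => mk3 x y (ε * u)) (fun u : A => mk3 u z (ε * w)) V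
    (fun u hu v hv huv => hU u (hVU hu) v (hVU hv) huv)
  rw [hV] at hb
  refine le_trans (Nat.mul_le_mul_right _ (Finset.card_le_card ?_)) hb
  intro T hT
  have hT' := (mem_filter.mp hT).2
  exact (@mem_filter _ _ (_) _ _).mpr ⟨mem_univ _, fun u _ hu => hT' ⟨u, hu⟩⟩

open Classical in
theorem good_count (ε : A)
    (hr : 2 * Fintype.card A ^ 4 * 3 ^ (Fintype.card A / 24) ≤ 4 ^ (Fintype.card A / 24)) :
    2 ^ Fintype.card (Orb A) ≤ 2 * (univ.filter (fun T : Finset (Orb A) => Good ε T)).card := by
  set k := Fintype.card A / 24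
  set N := Fintype.card (Orb A)
  have hsplit : (univ.filter (fun T : Finset (Orb A) => Good ε T)).card +
      (univ.filter (fun T : Finset (Orb A) => ¬ Good ε T)).card = 2 ^ N := by
    rw [Finset.card_filter_add_card_filter_not, Finset.card_univ, Fintype.card_finset]
  have hbad : (univ.filter (fun T : Finset (Orb A) => ¬ Good ε T)).card * 4 ^ k ≤
      Fintype.card A ^ 4 * (3 ^ k * 2 ^ N) := by
    have hsub : univ.filter (fun T : Finset (Orb A) => ¬ Good ε T) ⊆
        (univ : Finset (A × A × A × A)).biUnion (fun p =>
          univ.filter (fun T : Finset (Orb A) => ¬ ∃ u : A, mk3 p.1 p.2.1 (ε * u) ∈ T ∧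
            mk3 u p.2.2.1 (ε * p.2.2.2) ∈ T)) := by
      intro T hT
      rw [mem_filter] at hT
      simp only [Good, not_forall] at hT
      obtain ⟨_, x, y, z, w, h⟩ := hT
      rw [mem_biUnion]
      exact ⟨(x, y, z, w), mem_univ _, mem_filter.mpr ⟨mem_univ _, h⟩⟩
    calc _ ≤ (∑ p : A × A × A × A, (univ.filter (fun T : Finset (Orb A) =>
            ¬ ∃ u : A, mk3 p.1 p.2.1 (ε * u) ∈ T ∧
            mk3 u p.2.2.1 (ε * p.2.2.2) ∈ T)).card) * 4 ^ k :=
          Nat.mul_le_mul_right _ ((Finset.card_le_card hsub).trans Finset.card_biUnion_le)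
      _ = ∑ p : A × A × A × A, (univ.filter (fun T : Finset (Orb A) =>
            ¬ ∃ u : A, mk3 p.1 p.2.1 (ε * u) ∈ T ∧
            mk3 u p.2.2.1 (ε * p.2.2.2) ∈ T)).card * 4 ^ k := by rw [Finset.sum_mul]
      _ ≤ ∑ p : A × A × A × A, (3 ^ k * 2 ^ N) :=
          Finset.sum_le_sum (fun p _ => bad_one ε _ _ _ _)
      _ = _ := by
          rw [Finset.sum_const, Finset.card_univ, smul_eq_mul]
          simp only [Fintype.card_prod]
          ring
  have h2 : 2 * (univ.filter (fun T : Finset (Orb A) => ¬ Good ε T)).card ≤ 2 ^ N := by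
    have h4 : 0 < 4 ^ k := by positivity
    apply Nat.le_of_mul_le_mul_right _ h4
    calc 2 * (univ.filter (fun T : Finset (Orb A) => ¬ Good ε T)).card * 4 ^ k
        = 2 * ((univ.filter (fun T : Finset (Orb A) => ¬ Good ε T)).card * 4 ^ k) := by ring
      _ ≤ 2 * (Fintype.card A ^ 4 * (3 ^ k * 2 ^ N)) := Nat.mul_le_mul_left _ hbad
      _ = (2 * Fintype.card A ^ 4 * 3 ^ k) * 2 ^ N := by ring
      _ ≤ 4 ^ k * 2 ^ N := Nat.mul_le_mul_right _ hr
      _ = 2 ^ N * 4 ^ k := by ring
  omega

end

end Run7.h83.HF
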