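import Mathlib
import Pool.Agent.Run7.h83.HF.Orb

/-!
Hyperadditions on a finite commutative group with zero: encoding by a sign `ε` and a set of
orbits of triples; counting.
-/

set_option autoImplicit false

namespace Run7.h83.HF

open Finset

section
variable {X : Type*} [CommGroupWithZero X]

def WAxX (s : X → X → Set X) : Prop :=
  (∀ a b, s a b = s b a) ∧
    (∀ a, s 0 a = {a}) ∧
    (∀ a, ∃! b, (0 : X) ∈ s a b) ∧
    (∀ a b c d, a ∈ s b c → (0 : X) ∈ s b d → c ∈ s a d) ∧
    (∀ a b c, a ≠ 0 → (fun x => a * x) '' s b c = s (a * b) (a * c))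

def FullX (s : X → X → Set X) : Prop :=
  ∀ a b, a ≠ 0 → (0 : X) ∈ s a b → s a b = Set.univ

def AddAxX (s : X → X → Set X) : Prop :=
  (∀ a b, (s a b).Nonempty) ∧
    (∀ a b, s a b = s b a) ∧
    (∀ a b c, (⋃ x ∈ s a b, s x c) = ⋃ x ∈ s b c, s a x) ∧
    (∀ a, s 0 a = {a}) ∧
    (∀ a, ∃! b, (0 : X) ∈ s a b) ∧
    (∀ a b c d, a ∈ s b c → (0 : X) ∈ s b d → c ∈ s a d) ∧
    (∀ a b c, (fun x => a * x) '' s b c = s (a * b) (a * c))

/-- the hyperaddition attached to a sign and a set of orbits -/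
def hadd (ε : Xˣ) (T : Finset (Orb Xˣ)) (x y : X) : Set X :=
  {z | (x = 0 ∧ z = y) ∨ (y = 0 ∧ z = x) ∨
    ∃ a b : Xˣ, x = a ∧ y = b ∧ ((z = 0 ∧ b = ε * a) ∨ ∃ c : Xˣ, z = c ∧ mk3 a b (ε * c) ∈ T)}

variable (ε : Xˣ) (T : Finset (Orb Xˣ))

theorem hadd_zero_left (y : X) : hadd ε T 0 y = {y} := by
  ext z
  simp only [hadd, Set.mem_ofPred_eq, Set.mem_singleton_iff]
  constructor
  · rintro (⟨_, h⟩ | ⟨h1, h2⟩ | ⟨a, b, h, _⟩)
    · exact h
    · rw [h1, h2]
    · exact absurd h.symm a.ne_zero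
  · intro h; exact Or.inl ⟨trivial, h⟩

theorem hadd_zero_right (x : X) : hadd ε T x 0 = {x} := by
  ext z
  simp only [hadd, Set.mem_ofPred_eq, Set.mem_singleton_iff]
  constructor
  · rintro (⟨h1, h2⟩ | ⟨_, h2⟩ | ⟨a, b, _, h, _⟩)
    · rw [h1, h2]
    · exact h2
    · exact absurd h.symm b.ne_zero
  · intro h; exact Or.inr (Or.inl ⟨trivial, h⟩)

theorem zero_mem_hadd (a b : Xˣ) : (0 : X) ∈ hadd ε T (a : X) (b : X) ↔ b = ε * a := by
  simp only [hadd, Set.mem_ofPred_eq]
  constructor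
  · rintro (⟨h, _⟩ | ⟨h, _⟩ | ⟨a', b', h1, h2, h3⟩)
    · exact absurd h a.ne_zero
    · exact absurd h b.ne_zero
    · have e1 : a = a' := Units.ext h1
      have e2 : b = b' := Units.ext h2
      subst e1; subst e2
      rcases h3 with ⟨_, h⟩ | ⟨c, h, _⟩
      · exact h
      · exact absurd h.symm c.ne_zero
  · intro h
    exact Or.inr (Or.inr ⟨a, b, rfl, rfl, Or.inl ⟨trivial, h⟩⟩)

theorem unit_mem_hadd (a b c : Xˣ) :
    (c : X) ∈ hadd ε T (a : X) (b : X) ↔ mk3 a b (ε * c) ∈ T := by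
  simp only [hadd, Set.mem_ofPred_eq]
  constructor
  · rintro (⟨h, _⟩ | ⟨h, _⟩ | ⟨a', b', h1, h2, h3⟩)
    · exact absurd h a.ne_zero
    · exact absurd h b.ne_zero
    · have e1 : a = a' := Units.ext h1
      have e2 : b = b' := Units.ext h2
      subst e1; subst e2
      rcases h3 with ⟨h, _⟩ | ⟨c', h, h'⟩
      · exact absurd h c.ne_zero
      · have e3 : c = c' := Units.ext h
        subst e3
        exact h'
  · intro h
    exact Or.inr (Or.inr ⟨a, b, rfl, rfl, Or.inr ⟨c, rfl, h⟩⟩)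

theorem zero_or_unit (x : X) : x = 0 ∨ ∃ a : Xˣ, x = a := by
  rcases eq_or_ne x 0 with h | h
  · exact Or.inl h
  · exact Or.inr ⟨Units.mk0 x h, rfl⟩

theorem mk3_rot {A : Type*} [CommGroup A] (a b c : A) : mk3 b c a = mk3 a b c := by
  rw [← mk3_swap23 b c a, ← mk3_swap12 b a c]

theorem addAx_of_good (hε : ε * ε = 1) (hT : Good ε T) : AddAxX (hadd ε T) := by
  have hinv : ∀ c : Xˣ, ε * (ε * c) = c := fun c => by rw [← mul_assoc, hε, one_mul]
  have hcomm : ∀ a b, hadd ε T a b = hadd ε T b a := by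
    intro x y
    rcases zero_or_unit x with rfl | ⟨a, rfl⟩
    · rw [hadd_zero_left, hadd_zero_right]
    rcases zero_or_unit y with rfl | ⟨b, rfl⟩
    · rw [hadd_zero_left, hadd_zero_right]
    ext z
    rcases zero_or_unit z with rfl | ⟨c, rfl⟩
    · rw [zero_mem_hadd, zero_mem_hadd]
      constructor
      · intro h; rw [h, hinv]
      · intro h; rw [h, hinv]
    · rw [unit_mem_hadd, unit_mem_hadd, mk3_swap12]
  have hne : ∀ a b, (hadd ε T a b).Nonempty := by
    intro x y
    rcases zero_or_unit x with rfl | ⟨a, rfl⟩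
    · rw [hadd_zero_left]; exact Set.singleton_nonempty _
    rcases zero_or_unit y with rfl | ⟨b, rfl⟩
    · rw [hadd_zero_right]; exact Set.singleton_nonempty _
    obtain ⟨u, hu, _⟩ := hT a b 1 1
    exact ⟨u, (unit_mem_hadd ε T a b u).mpr hu⟩
  refine ⟨hne, hcomm, ?_, hadd_zero_left ε T, ?_, ?_, ?_⟩
  · intro x y z
    rcases zero_or_unit x with rfl | ⟨a, rfl⟩
    · ext w
      simp only [hadd_zero_left, Set.mem_iUnion, Set.mem_singleton_iff, exists_prop]
      constructor
      · rintro ⟨i, rfl, h⟩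
        exact ⟨w, h, rfl⟩
      · rintro ⟨i, h, rfl⟩
        exact ⟨y, rfl, h⟩
    rcases zero_or_unit y with rfl | ⟨b, rfl⟩
    · ext w
      simp [hadd_zero_left, hadd_zero_right]
    rcases zero_or_unit z with rfl | ⟨c, rfl⟩
    · ext w
      simp only [hadd_zero_right, Set.mem_iUnion, Set.mem_singleton_iff, exists_prop]
      constructor
      · rintro ⟨i, h, rfl⟩
        exact ⟨b, rfl, h⟩
      · rintro ⟨i, rfl, h⟩
        exact ⟨w, h, rfl⟩
    ext w
    simp only [Set.mem_iUnion, exists_prop]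
    rcases zero_or_unit w with rfl | ⟨d, rfl⟩
    · constructor
      · rintro ⟨i, hi, h0⟩
        rcases zero_or_unit i with rfl | ⟨i, rfl⟩
        · rw [hadd_zero_left] at h0
          exact absurd h0.symm c.ne_zero
        · rw [zero_mem_hadd] at h0
          rw [unit_mem_hadd, ← h0] at hi
          refine ⟨((ε * a : Xˣ) : X), ?_, ?_⟩
          · rw [unit_mem_hadd, hinv, mk3_rot]
            exact hi
          · rw [zero_mem_hadd]
      · rintro ⟨i, hi, h0⟩
        rcases zero_or_unit i with rfl | ⟨i, rfl⟩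
        · rw [hadd_zero_right] at h0
          exact absurd h0.symm a.ne_zero
        · rw [zero_mem_hadd] at h0
          rw [unit_mem_hadd, h0, hinv, mk3_rot] at hi
          refine ⟨((ε * c : Xˣ) : X), ?_, ?_⟩
          · rw [unit_mem_hadd, hinv]
            exact hi
          · rw [zero_mem_hadd, hinv]
    · constructor
      · intro _
        obtain ⟨u, h1, h2⟩ := hT b c a d
        exact ⟨u, (unit_mem_hadd ε T b c u).mpr h1,
          (unit_mem_hadd ε T a u d).mpr (by rw [← mk3_swap12]; exact h2)⟩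
      · intro _
        obtain ⟨u, h1, h2⟩ := hT a b c d
        exact ⟨u, (unit_mem_hadd ε T a b u).mpr h1, (unit_mem_hadd ε T u c d).mpr h2⟩
  · intro x
    rcases zero_or_unit x with rfl | ⟨a, rfl⟩
    · refine ⟨0, ?_, ?_⟩
      · show (0 : X) ∈ hadd ε T 0 0
        rw [hadd_zero_left]; rfl
      · intro y hy
        have hy' : (0 : X) ∈ hadd ε T 0 y := hy
        rw [hadd_zero_left] at hy'
        exact hy'.symm
    · refine ⟨((ε * a : Xˣ) : X), ?_, ?_⟩
      · show (0 : X) ∈ hadd ε T a _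
        rw [zero_mem_hadd]
      · intro y hy
        have hy' : (0 : X) ∈ hadd ε T a y := hy
        rcases zero_or_unit y with rfl | ⟨b, rfl⟩
        · rw [hadd_zero_right] at hy'
          exact absurd hy'.symm a.ne_zero
        · rw [zero_mem_hadd] at hy'
          rw [hy']
  · intro x y z w hx hw
    rcases zero_or_unit y with rfl | ⟨b, rfl⟩
    · rw [hadd_zero_left, Set.mem_singleton_iff] at hx hw
      subst hx; subst hw
      rw [hadd_zero_right]; rfl
    · rcases zero_or_unit w with rfl | ⟨d, rfl⟩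
      · rw [hadd_zero_right] at hw
        exact absurd hw.symm b.ne_zero
      · rw [zero_mem_hadd] at hw
        subst hw
        rcases zero_or_unit z with rfl | ⟨c, rfl⟩
        · rw [hadd_zero_right, Set.mem_singleton_iff] at hx
          subst hx
          rw [zero_mem_hadd]
        · rcases zero_or_unit x with rfl | ⟨a, rfl⟩
          · rw [zero_mem_hadd] at hx
            subst hx
            rw [hadd_zero_left]; rfl
          · rw [unit_mem_hadd] at hx ⊢
            rw [← hinv a, mk3_smul]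
            rw [← mk3_rot]
            exact hx
  · intro x y z
    rcases zero_or_unit x with rfl | ⟨a, rfl⟩
    · rw [zero_mul, zero_mul, hadd_zero_left]
      ext w
      simp only [zero_mul, Set.mem_image, Set.mem_singleton_iff]
      constructor
      · rintro ⟨_, _, h⟩; exact h.symm
      · intro h
        obtain ⟨v, hv⟩ := hne y z
        exact ⟨v, hv, h.symm⟩
    rcases zero_or_unit y with rfl | ⟨b, rfl⟩
    · rw [mul_zero, hadd_zero_left, hadd_zero_left, Set.image_singleton]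
    rcases zero_or_unit z with rfl | ⟨c, rfl⟩
    · rw [mul_zero, hadd_zero_right, hadd_zero_right, Set.image_singleton]
    ext w
    rw [← Units.val_mul, ← Units.val_mul]
    rcases zero_or_unit w with rfl | ⟨d, rfl⟩
    · rw [zero_mem_hadd]
      constructor
      · rintro ⟨v, hv, h0⟩
        have hv0 : v = 0 := by
          have : (a : X) * v = 0 := h0
          exact (mul_eq_zero.mp this).resolve_left a.ne_zero
        subst hv0
        rw [zero_mem_hadd] at hv
        rw [hv, mul_left_comm]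
      · intro h
        refine ⟨0, ?_, mul_zero _⟩
        rw [zero_mem_hadd]
        rw [mul_left_comm] at h
        exact mul_left_cancel h
    · rw [unit_mem_hadd]
      constructor
      · rintro ⟨v, hv, hd⟩
        have hd' : (a : X) * v = d := hd
        rcases zero_or_unit v with rfl | ⟨v, rfl⟩
        · rw [mul_zero] at hd'
          exact absurd hd'.symm d.ne_zero
        · have : d = a * v := Units.ext hd'.symm
          subst this
          rw [unit_mem_hadd] at hv
          rw [mul_left_comm, mk3_smul]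
          exact hv
      · intro h
        refine ⟨((a⁻¹ * d : Xˣ) : X), ?_, ?_⟩
        · rw [unit_mem_hadd]
          rw [← mk3_smul a]
          have : a * (ε * (a⁻¹ * d)) = ε * d := by
            rw [mul_left_comm a, mul_inv_cancel_left]
          rw [this]
          exact h
        · show (a : X) * _ = _
          rw [← Units.val_mul, mul_inv_cancel_left]

theorem hadd_inj {ε ε' : Xˣ} {T T' : Finset (Orb Xˣ)} (hε : ε * ε = 1)
    (h : hadd ε T = hadd ε' T') : ε = ε' ∧ T = T' := by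
  have h1 : ε = ε' := by
    have : (0 : X) ∈ hadd ε T ((1 : Xˣ) : X) (ε : X) := by rw [zero_mem_hadd, mul_one]
    rw [h, zero_mem_hadd, mul_one] at this
    exact this
  subst h1
  refine ⟨rfl, ?_⟩
  ext o
  obtain ⟨t, rfl⟩ := Quotient.exists_rep o
  have ht : (Quotient.mk _ t : Orb Xˣ) = mk3 (t 0) (t 1) (ε * (ε * t 2)) := by
    rw [← mul_assoc, hε, one_mul]
    unfold mk3
    congr 1
    funext i
    fin_cases i <;> rfl
  rw [ht, ← unit_mem_hadd, ← unit_mem_hadd, h]

theorem perm3 : ∀ σ : Equiv.Perm (Fin 3),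
    (σ 0 = 0 ∧ σ 1 = 1 ∧ σ 2 = 2) ∨ (σ 0 = 0 ∧ σ 1 = 2 ∧ σ 2 = 1) ∨
    (σ 0 = 1 ∧ σ 1 = 0 ∧ σ 2 = 2) ∨ (σ 0 = 1 ∧ σ 1 = 2 ∧ σ 2 = 0) ∨
    (σ 0 = 2 ∧ σ 1 = 0 ∧ σ 2 = 1) ∨ (σ 0 = 2 ∧ σ 1 = 1 ∧ σ 2 = 0) := by
  decide

/-- every weak hyperaddition comes from a sign and a set of orbits -/
theorem exists_code [Fintype X] {s : X → X → Set X} (hs : WAxX s) :
    ∃ (ε : Xˣ) (T : Finset (Orb Xˣ)), ε * ε = 1 ∧ s = hadd ε T := by
  classical
  obtain ⟨hcomm, hz, hneg, hrev, hdist⟩ := hs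
  have hzr : ∀ a, s a 0 = {a} := fun a => by rw [hcomm, hz]
  obtain ⟨e, he, heu⟩ := hneg 1
  have he0 : e ≠ 0 := by
    rintro rfl
    have : (0 : X) ∈ s 1 0 := he
    rw [hzr] at this
    exact zero_ne_one this
  obtain ⟨ε, hε⟩ : ∃ ε : Xˣ, (ε : X) = e := ⟨Units.mk0 e he0, rfl⟩
  subst hε
  have he' : (0 : X) ∈ s 1 (ε : X) := he
  have hscale : ∀ (a : Xˣ) (x y z : X), z ∈ s x y ↔ (a : X) * z ∈ s (a * x) (a * y) := by
    intro a x y z
    rw [← hdist _ _ _ a.ne_zero]
    constructor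
    · intro h; exact ⟨z, h, rfl⟩
    · rintro ⟨v, hv, h⟩
      have : v = z := mul_left_cancel₀ a.ne_zero h
      rwa [← this]
  have hneg' : ∀ a b : Xˣ, (0 : X) ∈ s a b ↔ b = ε * a := by
    intro a b
    have h0 : (0 : X) ∈ s (a : X) ((ε * a : Xˣ) : X) := by
      have := (hscale a _ _ _).mp he'
      rw [mul_zero, mul_one] at this
      rw [Units.val_mul, mul_comm (ε : X)]
      exact this
    constructor
    · intro h
      exact Units.ext ((hneg a).unique h h0)
    · rintro rfl; exact h0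
  have hee : ε * ε = 1 := by
    have h1 : (0 : X) ∈ s (ε : X) ((1 : Xˣ) : X) := by rw [hcomm]; exact he'
    rw [hneg'] at h1
    exact h1.symm
  have hinv : ∀ c : Xˣ, ε * (ε * c) = c := fun c => by rw [← mul_assoc, hee, one_mul]
  -- the relation
  let R : Xˣ → Xˣ → Xˣ → Prop := fun a b c => ((ε * c : Xˣ) : X) ∈ s (a : X) (b : X)
  have R12 : ∀ a b c, R a b c → R b a c := fun a b c h => by
    show _ ∈ s (b : X) (a : X)
    rw [hcomm]; exact h
  have R23 : ∀ a b c, R a b c → R a c b := fun a b c h => by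
    have h1 : ((ε * c : Xˣ) : X) ∈ s (a : X) (b : X) := h
    have h2 : (0 : X) ∈ s (a : X) ((ε * a : Xˣ) : X) := (hneg' _ _).mpr rfl
    have h3 := hrev _ _ _ _ h1 h2
    have h4 := (hscale ε _ _ _).mp h3
    rw [← Units.val_mul, ← Units.val_mul, ← Units.val_mul, hinv, hinv] at h4
    show ((ε * b : Xˣ) : X) ∈ s (a : X) (c : X)
    rw [hcomm]; exact h4
  have Rs : ∀ d a b c, R a b c → R (d * a) (d * b) (d * c) := fun d a b c h => by
    have h1 := (hscale d _ _ _).mp h
    show ((ε * (d * c) : Xˣ) : X) ∈ s ((d * a : Xˣ) : X) ((d * b : Xˣ) : X)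
    rw [mul_left_comm]
    push_cast at h1 ⊢
    exact h1
  have Rmk : ∀ a b c a' b' c', mk3 a b c = mk3 a' b' c' → R a b c → R a' b' c' := by
    intro a b c a' b' c' h hR
    obtain ⟨σ, d, hd⟩ := Quotient.exact h
    have e0 := hd 0
    have e1 := hd 1
    have e2 := hd 2
    rcases perm3 σ with ⟨s0, s1, s2⟩ | ⟨s0, s1, s2⟩ | ⟨s0, s1, s2⟩ | ⟨s0, s1, s2⟩ |
      ⟨s0, s1, s2⟩ | ⟨s0, s1, s2⟩ <;>
    · rw [s0] at e0
      rw [s1] at e1
      rw [s2] at e2
      simp at e0 e1 e2
      rw [e0, e1, e2]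
      apply Rs
      first
      | exact hR
      | exact R23 _ _ _ hR
      | exact R12 _ _ _ hR
      | exact R23 _ _ _ (R12 _ _ _ hR)
      | exact R12 _ _ _ (R23 _ _ _ hR)
      | exact R12 _ _ _ (R23 _ _ _ (R12 _ _ _ hR))
  refine ⟨ε, univ.filter (fun o => ∃ a b c : Xˣ, mk3 a b c = o ∧ R a b c), hee, ?_⟩
  funext x y
  rcases zero_or_unit x with rfl | ⟨a, rfl⟩
  · rw [hadd_zero_left, hz]
  rcases zero_or_unit y with rfl | ⟨b, rfl⟩
  · rw [hadd_zero_right, hzr]
  ext z
  rcases zero_or_unit z with rfl | ⟨c, rfl⟩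
  · rw [zero_mem_hadd, hneg']
  · rw [unit_mem_hadd, mem_filter]
    constructor
    · intro h
      refine ⟨mem_univ _, a, b, ε * c, rfl, ?_⟩
      show ((ε * (ε * c) : Xˣ) : X) ∈ _
      rw [hinv]; exact h
    · rintro ⟨_, a', b', c', h1, h2⟩
      have := Rmk _ _ _ _ _ _ h1 h2
      have h3 : ((ε * (ε * c) : Xˣ) : X) ∈ s (a : X) (b : X) := this
      rwa [hinv] at h3

theorem full_code {ε : Xˣ} {T : Finset (Orb Xˣ)} [Fintype Xˣ] (hε : ε * ε = 1)
    (h : FullX (hadd ε T)) : fullSet ε ⊆ T := by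
  classical
  intro o ho
  obtain ⟨b, _, rfl⟩ := mem_image.mp ho
  have h1 := h ((1 : Xˣ) : X) (ε : X) (Units.ne_zero 1)
    ((zero_mem_hadd ε T 1 ε).mpr (mul_one ε).symm)
  have h2 : ((ε * b : Xˣ) : X) ∈ hadd ε T ((1 : Xˣ) : X) (ε : X) := by rw [h1]; trivial
  rw [unit_mem_hadd, ← mul_assoc, hε, one_mul] at h2
  exact h2

end

/-- The main count for one multiplicative structure. -/
theorem main_count {X : Type*} [CommGroupWithZero X] [Fintype X] {r : ℕ}
    (hr : Nat.card Xˣ = r) (hbig : 2 * r ^ 4 * 3 ^ (r / 24) ≤ 4 ^ (r / 24)) :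
    Set.ncard {s : X → X → Set X | WAxX s ∧ FullX s} * 2 ^ (r / 6) ≤
      2 * Set.ncard {s : X → X → Set X | AddAxX s} ∧
    2 ^ (r * r / 6) ≤ 2 * Set.ncard {s : X → X → Set X | AddAxX s} := by
  classical
  rw [Nat.card_eq_fintype_card] at hr
  set N := Fintype.card (Orb Xˣ) with hN
  let E : Finset Xˣ := univ.filter (fun ε => ε * ε = 1)
  let PG : Finset (Σ _ : Xˣ, Finset (Orb Xˣ)) := E.sigma (fun ε => univ.filter (fun T => Good ε T))
  let PF : Finset (Σ _ : Xˣ, Finset (Orb Xˣ)) :=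
    E.sigma (fun ε => univ.filter (fun T => fullSet ε ⊆ T))
  have hG : E.card * 2 ^ N ≤ 2 * PG.card := by
    rw [Finset.card_sigma, Finset.mul_sum, ← smul_eq_mul, ← Finset.sum_const]
    apply Finset.sum_le_sum
    intro ε _
    apply good_count
    rw [hr]
    exact hbig
  have hF : PF.card * 2 ^ (r / 6) ≤ E.card * 2 ^ N := by
    rw [Finset.card_sigma, Finset.sum_mul, ← smul_eq_mul, ← Finset.sum_const]
    apply Finset.sum_le_sum
    intro ε _
    have h1 : univ.filter (fun T : Finset (Orb Xˣ) => fullSet ε ⊆ T) =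
        Finset.Icc (fullSet ε) univ := by
      ext T
      simp
    rw [h1, Finset.card_Icc_finset (Finset.subset_univ _), Finset.card_univ, ← hN, ← pow_add]
    apply Nat.pow_le_pow_right (by norm_num)
    have h2 := card_fullSet ε
    rw [hr] at h2
    have h3 : (fullSet ε).card ≤ N := by
      rw [hN, ← Finset.card_univ]; exact Finset.card_le_univ _
    omega
  have hH : PG.card ≤ Set.ncard {s : X → X → Set X | AddAxX s} := by
    have hinj : Set.InjOn (fun p : (Σ _ : Xˣ, Finset (Orb Xˣ)) => hadd p.1 p.2) (PG : Set _) := by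
      rintro ⟨ε, T⟩ hp ⟨ε', T'⟩ _ h
      rw [Finset.mem_coe, Finset.mem_sigma] at hp
      have hε : ε * ε = 1 := by simpa [E] using hp.1
      obtain ⟨h1, h2⟩ := hadd_inj hε h
      subst h1; subst h2
      rfl
    rw [← Set.ncard_coe_finset, ← Set.InjOn.ncard_image hinj]
    apply Set.ncard_le_ncard _ (Set.toFinite _)
    rintro _ ⟨⟨ε, T⟩, hp, rfl⟩
    rw [Finset.mem_coe, Finset.mem_sigma] at hp
    have hε : ε * ε = 1 := by simpa [E] using hp.1
    have hT : Good ε T := by simpa using hp.2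
    exact addAx_of_good ε T hε hT
  have hW : Set.ncard {s : X → X → Set X | WAxX s ∧ FullX s} ≤ PF.card := by
    have hsub : {s : X → X → Set X | WAxX s ∧ FullX s} ⊆
        (fun p : (Σ _ : Xˣ, Finset (Orb Xˣ)) => hadd p.1 p.2) '' (PF : Set _) := by
      rintro s ⟨hs, hfull⟩
      obtain ⟨ε, T, hε, rfl⟩ := exists_code hs
      refine ⟨⟨ε, T⟩, ?_, rfl⟩
      rw [Finset.mem_coe, Finset.mem_sigma]
      refine ⟨by simpa [E] using hε, ?_⟩
      rw [mem_filter]
      exact ⟨mem_univ _, full_code hε hfull⟩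
    refine (Set.ncard_le_ncard hsub (Set.toFinite _)).trans ?_
    refine (Set.ncard_image_le (Set.toFinite _)).trans ?_
    rw [Set.ncard_coe_finset]
  have hE : 1 ≤ E.card := Finset.card_pos.mpr ⟨1, by simp [E]⟩
  constructor
  · calc _ ≤ PF.card * 2 ^ (r / 6) := Nat.mul_le_mul_right _ hW
      _ ≤ E.card * 2 ^ N := hF
      _ ≤ 2 * PG.card := hG
      _ ≤ _ := Nat.mul_le_mul_left _ hH
  · have h1 := card_orb (A := Xˣ)
    rw [hr, ← hN] at h1
    calc 2 ^ (r * r / 6) ≤ 2 ^ N := Nat.pow_le_pow_right (by norm_num) (by omega)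
      _ = 1 * 2 ^ N := (one_mul _).symm
      _ ≤ E.card * 2 ^ N := Nat.mul_le_mul_right _ hE
      _ ≤ 2 * PG.card := hG
      _ ≤ _ := Nat.mul_le_mul_left _ hH

end Run7.h83.HF
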