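import Mathlib

/-!
Finite index multiplicative subgroups `G` of a field `K`:
`G - G = K` when `K` is infinite (Hales-Jewett) and when `K` is finite with more than
`16 * r ^ 4` elements (`r` the index; second moment).
-/

set_option autoImplicit false

namespace Run7.h83.HF

open Finset

/-! ### Infinite fields -/

theorem exists_weights {K ι : Type*} [Field K] [Infinite K] [Fintype ι] [DecidableEq ι] :
    ∃ s : ι → K, ∀ J : Finset ι, J.Nonempty → ∑ i ∈ J, s i ≠ 0 := by
  classical
  have key : ∀ S : Finset ι, ∃ s : ι → K, ∀ J : Finset ι, J ⊆ S → J.Nonempty →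
      ∑ i ∈ J, s i ≠ 0 := by
    intro S
    induction S using Finset.induction_on with
    | empty =>
      refine ⟨fun _ => 0, fun J hJ hne => ?_⟩
      rw [Finset.subset_empty] at hJ
      exact absurd hJ hne.ne_empty
    | insert j S hj ih =>
      obtain ⟨s, hs⟩ := ih
      obtain ⟨v, hv⟩ := Infinite.exists_notMem_finset
        (S.powerset.image (fun J => -∑ i ∈ J, s i))
      refine ⟨Function.update s j v, fun J hJ hne => ?_⟩
      by_cases hjJ : j ∈ J
      · have h1 : ∑ i ∈ J, Function.update s j v i = v + ∑ i ∈ J.erase j, s i := by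
          rw [← Finset.add_sum_erase J _ hjJ]
          congr 1
          · simp
          · apply Finset.sum_congr rfl
            intro i hi
            rw [Function.update_of_ne (Finset.ne_of_mem_erase hi)]
        rw [h1]
        intro h0
        apply hv
        rw [Finset.mem_image]
        refine ⟨J.erase j, ?_, ?_⟩
        · rw [Finset.mem_powerset]
          intro i hi
          have := hJ (Finset.mem_of_mem_erase hi)
          rw [Finset.mem_insert] at this
          exact this.resolve_left (Finset.ne_of_mem_erase hi)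
        · linear_combination -h0
      · have h1 : ∑ i ∈ J, Function.update s j v i = ∑ i ∈ J, s i := by
          apply Finset.sum_congr rfl
          intro i hi
          rw [Function.update_of_ne]
          rintro rfl
          exact hjJ hi
        rw [h1]
        apply hs J _ hne
        intro i hi
        have := hJ hi
        rw [Finset.mem_insert] at this
        refine this.resolve_left ?_
        rintro rfl
        exact hjJ hi
  obtain ⟨s, hs⟩ := key Finset.univ
  exact ⟨s, fun J hne => hs J (Finset.subset_univ J) hne⟩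

theorem diff_infinite {K κ : Type*} [Field K] [Infinite K] [Finite κ] (G : Subgroup Kˣ)
    (f : K → κ) (hf : ∀ x y : K, f x = f y ↔ ∃ g ∈ G, y = x * (g : K)) (c : K) :
    ∃ g ∈ G, ∃ h ∈ G, c = (g : K) - (h : K) := by
  classical
  by_cases hc : c = 0
  · exact ⟨1, G.one_mem, 1, G.one_mem, by simp [hc]⟩
  let ρ : Option κ → K := fun o => o.elim 0 (fun k => Function.invFun f k)
  have hρ : ∀ x : K, f (ρ (some (f x))) = f x := fun x => Function.invFun_eq ⟨x, rfl⟩
  obtain ⟨ι, _, hι⟩ := Combinatorics.Line.exists_mono_in_high_dimension (Option κ) κ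
  obtain ⟨s, hs⟩ := exists_weights (K := K) (ι := ι)
  obtain ⟨l, c0, hl⟩ := hι (fun x => f (∑ i, s i * ρ (x i)))
  let J : Finset ι := Finset.univ.filter (fun i => l.idxFun i = none)
  have hJ : J.Nonempty := by
    obtain ⟨i, hi⟩ := l.proper
    exact ⟨i, by simp [J, hi]⟩
  set d : K := ∑ i ∈ J, s i with hd
  have hd0 : d ≠ 0 := hs J hJ
  set b : K := ∑ i ∈ Jᶜ, s i * ρ ((l.idxFun i).getD none) with hb
  have hsum : ∀ x : Option κ, ∑ i, s i * ρ (l x i) = d * ρ x + b := by
    intro x
    rw [← Finset.sum_add_sum_compl J, hd, Finset.sum_mul, hb]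
    congr 1
    · apply Finset.sum_congr rfl
      intro i hi
      have hi' : l.idxFun i = none := by simpa [J] using hi
      simp [hi']
    · apply Finset.sum_congr rfl
      intro i hi
      have hi' : l.idxFun i ≠ none := by simpa [J] using hi
      obtain ⟨y, hy⟩ := Option.ne_none_iff_exists'.mp hi'
      simp [hy]
  have hcol : ∀ x : Option κ, f (d * ρ x + b) = c0 := fun x => by
    rw [← hsum x]; exact hl x
  have hb' : f b = c0 := by
    have := hcol none
    simpa [ρ] using this
  have hrel : ∀ k : κ, ∃ g ∈ G, d * ρ (some k) + b = b * (g : K) := by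
    intro k
    exact (hf b _).mp (hb'.trans (hcol (some k)).symm)
  have hb0 : b ≠ 0 := by
    intro h0
    obtain ⟨g, _, hg⟩ := hrel (f 1)
    rw [h0] at hg
    have h1 : ρ (some (f 1)) = 0 := by
      have : d * ρ (some (f 1)) = 0 := by simpa using hg
      exact (mul_eq_zero.mp this).resolve_left hd0
    obtain ⟨g', _, hg'⟩ := (hf _ _).mp (hρ 1)
    rw [h1] at hg'
    simp at hg'
  obtain ⟨g, hg, hge⟩ := hrel (f (c * b / d))
  obtain ⟨g', hg', hge'⟩ := (hf _ _).mp (hρ (c * b / d))
  refine ⟨g' * g, G.mul_mem hg' hg, g', hg', ?_⟩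
  generalize ρ (some (f (c * b / d))) = w at hge hge'
  have h1 : d * w = b * ((g : K) - 1) := by
    linear_combination hge
  have h2 : c * b = d * w * (g' : K) := by
    have : d * (c * b / d) = c * b := by field_simp
    rw [← this, hge']
    ring
  rw [h1] at h2
  have h3 : b * (c - ((g' * g : Kˣ) : K) + (g' : K)) = 0 := by
    push_cast
    linear_combination h2
  have h4 := (mul_eq_zero.mp h3).resolve_left hb0
  linear_combination h4

/-! ### Finite fields: the second moment argument -/

theorem second_moment {K : Type*} [Field K] [Fintype K] [DecidableEq K] (S : Finset K)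
    (φ : K → ℝ) (h0 : ∑ x, φ x = 0) :
    ∑ t : K, ∑ x : K, (∑ g ∈ S, φ (x + t * g)) ^ 2 =
      (Fintype.card K : ℝ) * S.card * ∑ x, φ x ^ 2 := by
  have h1 : ∀ t x : K, (∑ g ∈ S, φ (x + t * g)) ^ 2 =
      ∑ g ∈ S, ∑ h ∈ S, φ (x + t * g) * φ (x + t * h) := by
    intro t x
    rw [sq, Finset.sum_mul_sum]
  have h2 : ∑ t : K, ∑ x : K, (∑ g ∈ S, φ (x + t * g)) ^ 2 =
      ∑ g ∈ S, ∑ h ∈ S, ∑ t : K, ∑ x : K, φ (x + t * g) * φ (x + t * h) := by
    simp_rw [h1]
    calc ∑ t : K, ∑ x : K, ∑ g ∈ S, ∑ h ∈ S, φ (x + t * g) * φ (x + t * h)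
        = ∑ t : K, ∑ g ∈ S, ∑ x : K, ∑ h ∈ S, φ (x + t * g) * φ (x + t * h) := by
          apply Finset.sum_congr rfl; intro t _; rw [Finset.sum_comm]
      _ = ∑ g ∈ S, ∑ t : K, ∑ x : K, ∑ h ∈ S, φ (x + t * g) * φ (x + t * h) := by
          rw [Finset.sum_comm]
      _ = ∑ g ∈ S, ∑ t : K, ∑ h ∈ S, ∑ x : K, φ (x + t * g) * φ (x + t * h) := by
          apply Finset.sum_congr rfl; intro g _
          apply Finset.sum_congr rfl; intro t _; rw [Finset.sum_comm]
      _ = _ := by
          apply Finset.sum_congr rfl; intro g _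
          rw [Finset.sum_comm]
  have hshift : ∀ (F : K → ℝ) (a : K), ∑ x, F (x + a) = ∑ x, F x := fun F a =>
    Equiv.sum_comp (Equiv.addRight a) F
  have h3 : ∀ g ∈ S, ∑ h ∈ S, ∑ t : K, ∑ x : K, φ (x + t * g) * φ (x + t * h) =
      (Fintype.card K : ℝ) * ∑ x, φ x ^ 2 := by
    intro g hg
    rw [Finset.sum_eq_single_of_mem g hg]
    · have : ∀ t : K, ∑ x : K, φ (x + t * g) * φ (x + t * g) = ∑ x, φ x ^ 2 := by
        intro t
        rw [hshift (fun x => φ x * φ x) (t * g)]
        simp [sq]
      rw [Finset.sum_congr rfl (fun t _ => this t)]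
      simp
    · intro h _ hne
      have e1 : ∀ t : K, ∑ x : K, φ (x + t * g) * φ (x + t * h) =
          ∑ x : K, φ x * φ (x + t * (h - g)) := by
        intro t
        rw [← hshift (fun x => φ x * φ (x + t * (h - g))) (t * g)]
        apply Finset.sum_congr rfl
        intro x _
        congr 2
        ring
      simp_rw [e1]
      rw [Finset.sum_comm]
      apply Finset.sum_eq_zero
      intro x _
      rw [← Finset.mul_sum]
      have hne' : h - g ≠ 0 := sub_ne_zero.mpr hne
      have e2 : ∑ t : K, φ (x + t * (h - g)) = ∑ y, φ y := by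
        let e : K ≃ K := (Equiv.mulRight₀ (h - g) hne').trans (Equiv.addLeft x)
        have := e.sum_comp φ
        simpa [e] using this
      rw [e2, h0, mul_zero]
  rw [h2, Finset.sum_congr rfl h3]
  simp
  ring

theorem card_bound {K : Type*} [Field K] [Fintype K] [DecidableEq K] (S : Finset K)
    (hSm : ∀ a ∈ S, ∀ b ∈ S, a * b ∈ S) (c : K) (hc : c ≠ 0)
    (hdiff : ∀ g ∈ S, ∀ h ∈ S, ∀ k ∈ S, c * k ≠ g - h) :
    S.card ^ 4 ≤ Fintype.card K ^ 3 := by
  set q : ℝ := (Fintype.card K : ℝ) with hq
  set n : ℝ := (S.card : ℝ) with hn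
  have hqpos : 0 < q := by
    rw [hq]; exact_mod_cast Fintype.card_pos
  let φ : K → ℝ := fun x => (if x ∈ S then 1 else 0) - n / q
  have h0 : ∑ x, φ x = 0 := by
    simp only [φ, Finset.sum_sub_distrib, Finset.sum_ite_mem, Finset.univ_inter,
      Finset.sum_const, Finset.card_univ, nsmul_eq_mul, mul_one]
    rw [← hn, ← hq]
    field_simp
    ring
  have hsq : ∑ x, φ x ^ 2 = n - n ^ 2 / q := by
    have : ∀ x, φ x ^ 2 = (if x ∈ S then (1 - 2 * (n / q)) else 0) + (n / q) ^ 2 := by
      intro x
      simp only [φ]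
      split_ifs <;> ring
    simp_rw [this]
    rw [Finset.sum_add_distrib, Finset.sum_ite_mem, Finset.univ_inter]
    simp only [Finset.sum_const, Finset.card_univ, nsmul_eq_mul]
    rw [← hn, ← hq]
    field_simp
    ring
  have hle : ∑ x, φ x ^ 2 ≤ n := by
    rw [hsq]
    have : 0 ≤ n ^ 2 / q := by positivity
    linarith
  have hM := second_moment S φ h0
  -- lower bound
  have hlow : n ^ 2 * (n ^ 2 / q) ^ 2 ≤ ∑ t : K, ∑ x : K, (∑ g ∈ S, φ (x + t * g)) ^ 2 := by
    have hval : ∀ t ∈ S.image (fun k => c * k), ∀ x ∈ S,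
        (∑ g ∈ S, φ (x + t * g)) ^ 2 = (n ^ 2 / q) ^ 2 := by
      intro t ht x hx
      obtain ⟨k, hk, rfl⟩ := Finset.mem_image.mp ht
      have : ∑ g ∈ S, φ (x + c * k * g) = - (n ^ 2 / q) := by
        have hz : ∀ g ∈ S, φ (x + c * k * g) = - (n / q) := by
          intro g hg
          simp only [φ]
          rw [if_neg]
          · ring
          · intro hmem
            refine hdiff _ hmem x hx (k * g) (hSm k hk g hg) ?_
            ring
        rw [Finset.sum_congr rfl hz]
        simp only [Finset.sum_const, nsmul_eq_mul]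
        rw [← hn]
        ring
      rw [this]
      ring
    have hinj : Function.Injective (fun k : K => c * k) := mul_right_injective₀ hc
    calc n ^ 2 * (n ^ 2 / q) ^ 2
        = ∑ t ∈ S.image (fun k => c * k), ∑ x ∈ S, (∑ g ∈ S, φ (x + t * g)) ^ 2 := by
          rw [Finset.sum_congr rfl (fun t ht => Finset.sum_congr rfl (hval t ht))]
          simp only [Finset.sum_const, nsmul_eq_mul]
          rw [Finset.card_image_of_injective _ hinj, ← hn]
          ring
      _ ≤ ∑ t ∈ S.image (fun k => c * k), ∑ x : K, (∑ g ∈ S, φ (x + t * g)) ^ 2 := by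
          apply Finset.sum_le_sum
          intro t _
          apply Finset.sum_le_sum_of_subset_of_nonneg (Finset.subset_univ _)
          intro i _ _
          positivity
      _ ≤ _ := by
          apply Finset.sum_le_sum_of_subset_of_nonneg (Finset.subset_univ _)
          intro i _ _
          positivity
  have hup : ∑ t : K, ∑ x : K, (∑ g ∈ S, φ (x + t * g)) ^ 2 ≤ q * n * n := by
    rw [hM, ← hq, ← hn]
    have : 0 ≤ q * n := by positivity
    exact mul_le_mul_of_nonneg_left hle this
  have hfin : n ^ 2 * (n ^ 2 / q) ^ 2 ≤ q * n * n := hlow.trans hup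
  have hn0 : 0 ≤ n := by rw [hn]; positivity
  have hcast : n ^ 4 ≤ q ^ 3 := by
    rcases hn0.eq_or_lt with h | h
    · rw [← h]
      have : (0:ℝ) ≤ q ^ 3 := by positivity
      simpa using this
    · have h1 : n ^ 2 * (n ^ 2 / q) ^ 2 = n ^ 2 * (n ^ 4 / q ^ 2) := by
        field_simp
      rw [h1] at hfin
      have h2 : n ^ 2 * (n ^ 4 / q ^ 2) ≤ n ^ 2 * q := by linarith [hfin]
      have h3 : n ^ 4 / q ^ 2 ≤ q := le_of_mul_le_mul_left h2 (by positivity)
      rw [div_le_iff₀ (by positivity)] at h3
      calc n ^ 4 ≤ q * q ^ 2 := h3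
        _ = q ^ 3 := by ring
  rw [hn, hq] at hcast
  exact_mod_cast hcast

end Run7.h83.HF
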