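import Mathlib
import Pool.Agent.Run7.h83.HF.Field

/-!
Labelled hyperfields and quotient hyperfields on `Fin (r+1)`.
-/

set_option autoImplicit false

namespace Run7.h83.HF

open Finset

/-- labelled structures -/
abbrev P (r : ℕ) : Type :=
  (Fin (r+1) → Fin (r+1) → Fin (r+1)) × (Fin (r+1) → Fin (r+1) → Set (Fin (r+1)))

/-- quotient data -/
def QData {r : ℕ} (p : P r) (K : Type) [Field K] (G : Subgroup Kˣ) (f : K → Fin (r+1)) : Prop :=
  Function.Surjective f ∧ f 0 = 0 ∧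
    (∀ x y : K, f x = f y ↔ ∃ g ∈ G, y = x * (g : K)) ∧
    (∀ x y : K, f (x * y) = p.1 (f x) (f y)) ∧
    (∀ x y : K, p.2 (f x) (f y) = {z | ∃ g ∈ G, ∃ h ∈ G, z = f (x * (g : K) + y * (h : K))})

/-- `p` is a quotient hyperfield -/
def IsQ {r : ℕ} (p : P r) : Prop :=
  ∃ (K : Type) (_ : Field K), ∃ G : Subgroup Kˣ, ∃ f : K → Fin (r+1), QData p K G f

/-- the multiplicative axioms -/
def MulAx {r : ℕ} (m : Fin (r+1) → Fin (r+1) → Fin (r+1)) : Prop :=
  (∃ u : Fin (r+1), u ≠ 0 ∧ ∀ a, m u a = a) ∧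
    (∀ a b, m a b = m b a) ∧
    (∀ a b c, m (m a b) c = m a (m b c)) ∧
    (∀ a, m 0 a = 0) ∧
    (∀ a b, a ≠ 0 → b ≠ 0 → m a b ≠ 0) ∧
    (∀ a, a ≠ 0 → ∃ b, ∀ c, m (m a b) c = c)

/-- the weak additive axioms (no associativity, no nonemptiness) -/
def WAx {r : ℕ} (m : Fin (r+1) → Fin (r+1) → Fin (r+1))
    (s : Fin (r+1) → Fin (r+1) → Set (Fin (r+1))) : Prop :=
  (∀ a b, s a b = s b a) ∧
    (∀ a, s 0 a = {a}) ∧
    (∀ a, ∃! b, (0 : Fin (r+1)) ∈ s a b) ∧
    (∀ a b c d, a ∈ s b c → (0 : Fin (r+1)) ∈ s b d → c ∈ s a d) ∧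
    (∀ a b c, a ≠ 0 → (fun x => m a x) '' s b c = s (m a b) (m a c))

/-- all sums `a + (-a)`, `a ≠ 0`, are everything -/
def Full {r : ℕ} (s : Fin (r+1) → Fin (r+1) → Set (Fin (r+1))) : Prop :=
  ∀ a b, a ≠ 0 → (0 : Fin (r+1)) ∈ s a b → s a b = Set.univ

/-- the additive axioms -/
def AddAx {r : ℕ} (m : Fin (r+1) → Fin (r+1) → Fin (r+1))
    (s : Fin (r+1) → Fin (r+1) → Set (Fin (r+1))) : Prop :=
  (∀ a b, (s a b).Nonempty) ∧
    (∀ a b, s a b = s b a) ∧
    (∀ a b c, (⋃ x ∈ s a b, s x c) = ⋃ x ∈ s b c, s a x) ∧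
    (∀ a, s 0 a = {a}) ∧
    (∀ a, ∃! b, (0 : Fin (r+1)) ∈ s a b) ∧
    (∀ a b c d, a ∈ s b c → (0 : Fin (r+1)) ∈ s b d → c ∈ s a d) ∧
    (∀ a b c, (fun x => m a x) '' s b c = s (m a b) (m a c))

/-- `p` is a hyperfield -/
def IsH {r : ℕ} (p : P r) : Prop := MulAx p.1 ∧ AddAx p.1 p.2

/-- isomorphism -/
def Iso {r : ℕ} (p q : P r) : Prop :=
  ∃ e : Fin (r+1) ≃ Fin (r+1), ∀ a b, e (p.1 a b) = q.1 (e a) (e b) ∧ e '' p.2 a b = q.2 (e a) (e b)

section
variable {r : ℕ} {p : P r} {K : Type} [Field K] {G : Subgroup Kˣ} {f : K → Fin (r+1)}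

theorem QData.zero_iff (h : QData p K G f) (x : K) : f x = 0 ↔ x = 0 := by
  constructor
  · intro hx
    rw [← h.2.1] at hx
    obtain ⟨g, _, hg⟩ := (h.2.2.1 0 x).mp hx.symm
    simpa using hg
  · rintro rfl; exact h.2.1

theorem QData.mulAx (h : QData p K G f) : MulAx p.1 := by
  obtain ⟨hs, h0, hf, hm, _⟩ := id h
  refine ⟨⟨f 1, ?_, ?_⟩, ?_, ?_, ?_, ?_, ?_⟩
  · rw [Ne, h.zero_iff]; exact one_ne_zero
  · intro a; obtain ⟨x, rfl⟩ := hs a; rw [← hm, one_mul]
  · intro a b; obtain ⟨x, rfl⟩ := hs a; obtain ⟨y, rfl⟩ := hs b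
    rw [← hm, ← hm, mul_comm]
  · intro a b c; obtain ⟨x, rfl⟩ := hs a; obtain ⟨y, rfl⟩ := hs b; obtain ⟨z, rfl⟩ := hs c
    rw [← hm, ← hm, ← hm, ← hm, mul_assoc]
  · intro a; obtain ⟨x, rfl⟩ := hs a
    rw [← h0, ← hm, zero_mul]
  · intro a b ha hb; obtain ⟨x, rfl⟩ := hs a; obtain ⟨y, rfl⟩ := hs b
    rw [← hm, Ne, h.zero_iff]
    rw [Ne, h.zero_iff] at ha hb
    exact mul_ne_zero ha hb
  · intro a ha; obtain ⟨x, rfl⟩ := hs a
    rw [Ne, h.zero_iff] at ha
    refine ⟨f x⁻¹, fun c => ?_⟩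
    obtain ⟨z, rfl⟩ := hs c
    rw [← hm, ← hm, mul_inv_cancel₀ ha, one_mul]

theorem QData.wAx (h : QData p K G f) : WAx p.1 p.2 := by
  obtain ⟨hs, h0, hf, hm, ha⟩ := id h
  have hfg : ∀ (x : K) (g : Kˣ), g ∈ G → f (x * g) = f x := fun x g hg =>
    ((hf x (x * g)).mpr ⟨g, hg, rfl⟩).symm
  refine ⟨?_, ?_, ?_, ?_, ?_⟩
  · intro a b; obtain ⟨x, rfl⟩ := hs a; obtain ⟨y, rfl⟩ := hs b
    rw [ha, ha]
    ext z
    constructor
    · rintro ⟨g, hg, k, hk, rfl⟩
      exact ⟨k, hk, g, hg, congrArg f (add_comm _ _)⟩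
    · rintro ⟨g, hg, k, hk, rfl⟩
      exact ⟨k, hk, g, hg, congrArg f (add_comm _ _)⟩
  · intro a; obtain ⟨x, rfl⟩ := hs a
    rw [← h0, ha]
    ext z
    constructor
    · rintro ⟨g, hg, k, hk, rfl⟩
      rw [zero_mul, zero_add, hfg _ _ hk]
      rfl
    · rintro rfl
      exact ⟨1, G.one_mem, 1, G.one_mem, by simp⟩
  · intro a; obtain ⟨x, rfl⟩ := hs a
    refine ⟨f (-x), ?_, ?_⟩
    · show (0 : Fin (r+1)) ∈ p.2 (f x) (f (-x))
      rw [ha]
      exact ⟨1, G.one_mem, 1, G.one_mem, by simp [h0]⟩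
    · intro b hb
      obtain ⟨y, rfl⟩ := hs b
      have hb' : (0 : Fin (r+1)) ∈ p.2 (f x) (f y) := hb
      rw [ha] at hb'
      obtain ⟨g, hg, k, hk, he⟩ := hb'
      have hz := (h.zero_iff _).mp he.symm
      rw [hf]
      refine ⟨k * g⁻¹, G.mul_mem hk (G.inv_mem hg), ?_⟩
      have hg0 : (g : K) ≠ 0 := g.ne_zero
      have : y * k = -x * g := by linear_combination hz
      push_cast
      field_simp
      linear_combination -this
  · intro a b c d hab hbd
    obtain ⟨x, rfl⟩ := hs b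
    obtain ⟨y, rfl⟩ := hs c
    obtain ⟨w, rfl⟩ := hs d
    rw [ha] at hab hbd
    obtain ⟨g, hg, k, hk, rfl⟩ := hab
    obtain ⟨g', hg', k', hk', he⟩ := hbd
    have hz := (h.zero_iff _).mp he.symm
    rw [ha]
    refine ⟨g', hg', g * k', G.mul_mem hg hk', ?_⟩
    have : (x * (g : K) + y * (k : K)) * (g' : K) + w * ((g * k' : Kˣ) : K) =
        y * ((k * g' : Kˣ) : K) := by
      push_cast
      linear_combination (g : K) * hz
    rw [this, hfg _ _ (G.mul_mem hk hg')]
  · intro a b c _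
    obtain ⟨w, rfl⟩ := hs a
    obtain ⟨x, rfl⟩ := hs b
    obtain ⟨y, rfl⟩ := hs c
    rw [ha, ← hm, ← hm, ha]
    ext z
    constructor
    · rintro ⟨_, ⟨g, hg, k, hk, rfl⟩, rfl⟩
      refine ⟨g, hg, k, hk, ?_⟩
      show p.1 (f w) _ = _
      rw [← hm]
      congr 1
      ring
    · rintro ⟨g, hg, k, hk, rfl⟩
      refine ⟨_, ⟨g, hg, k, hk, rfl⟩, ?_⟩
      show p.1 (f w) _ = _
      rw [← hm]
      congr 1
      ring

theorem QData.full (h : QData p K G f)
    (hd : ∀ c : K, ∃ g ∈ G, ∃ k ∈ G, c = (g : K) - (k : K)) : Full p.2 := by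
  obtain ⟨hs, h0, hf, hm, ha⟩ := id h
  intro a b ha0 hab
  obtain ⟨x, rfl⟩ := hs a
  obtain ⟨y, rfl⟩ := hs b
  rw [Ne, h.zero_iff] at ha0
  rw [ha] at hab ⊢
  obtain ⟨g, hg, k, hk, he⟩ := hab
  have hz := (h.zero_iff _).mp he.symm
  rw [Set.eq_univ_iff_forall]
  intro z
  obtain ⟨w, rfl⟩ := hs z
  obtain ⟨u, hu, v, hv, huv⟩ := hd (w / x)
  refine ⟨u, hu, g⁻¹ * k * v, G.mul_mem (G.mul_mem (G.inv_mem hg) hk) hv, ?_⟩
  congr 1
  have hg0 : (g : K) ≠ 0 := g.ne_zero
  rw [div_eq_iff ha0] at huv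
  rw [huv]
  push_cast
  field_simp
  linear_combination (-(v : K)) * hz

theorem QData.pos (h : QData p K G f) : 0 < r := by
  rcases Nat.eq_zero_or_pos r with hr | hr
  · subst hr
    have : f 1 = 0 := Subsingleton.elim (α := Fin 1) _ _
    rw [h.zero_iff] at this
    exact absurd this one_ne_zero
  · exact hr

open Classical in
theorem QData.card_eq (h : QData p K G f) [Fintype K] :
    Fintype.card K = 1 + r * (Finset.univ.filter (fun x : K => ∃ g ∈ G, x = (g : K))).card := by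
  obtain ⟨hs, h0, hf, hm, ha⟩ := id h
  set S := Finset.univ.filter (fun x : K => ∃ g ∈ G, x = (g : K)) with hS
  rw [← Finset.card_univ,
    Finset.card_eq_sum_card_fiberwise (f := f) (t := Finset.univ) (fun _ _ => Finset.mem_univ _),
    Fin.sum_univ_succ]
  congr 1
  · rw [Finset.card_eq_one]
    refine ⟨0, ?_⟩
    ext x
    simp [h.zero_iff]
  · have : ∀ i : Fin r, (Finset.univ.filter (fun x : K => f x = i.succ)).card = S.card := by
      intro i
      obtain ⟨x, hx⟩ := hs i.succ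
      have hx0 : x ≠ 0 := by
        intro h00
        rw [← h.zero_iff, hx] at h00
        exact Fin.succ_ne_zero i h00
      have : Finset.univ.filter (fun y : K => f y = i.succ) = S.image (fun k => x * k) := by
        ext y
        simp only [Finset.mem_filter, Finset.mem_univ, true_and, Finset.mem_image, hS]
        rw [← hx]
        constructor
        · intro hy
          obtain ⟨g, hg, rfl⟩ := (hf x y).mp hy.symm
          exact ⟨g, ⟨g, hg, rfl⟩, rfl⟩
        · rintro ⟨k, ⟨g, hg, rfl⟩, rfl⟩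
          exact ((hf x _).mpr ⟨g, hg, rfl⟩).symm
      rw [this, Finset.card_image_of_injective _ (mul_right_injective₀ hx0)]
    rw [Finset.sum_congr rfl (fun i _ => this i)]
    simp

open Classical in
theorem QData.card_S (_ : QData p K G f) [Fintype K] :
    (Finset.univ.filter (fun x : K => ∃ g ∈ G, x = (g : K))).card = Nat.card G := by
  rw [Nat.card_eq_fintype_card, ← Finset.card_univ (α := G)]
  symm
  apply Finset.card_bij (fun (g : G) _ => ((g : Kˣ) : K))
  · intro g _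
    simp only [Finset.mem_filter, Finset.mem_univ, true_and]
    exact ⟨g, g.2, rfl⟩
  · intro a _ b _ hab
    exact Subtype.ext (Units.ext hab)
  · intro x hx
    simp only [Finset.mem_filter, Finset.mem_univ, true_and] at hx
    obtain ⟨g, hg, rfl⟩ := hx
    exact ⟨⟨g, hg⟩, Finset.mem_univ _, rfl⟩

theorem QData.natCard (h : QData p K G f) [Finite K] : Nat.card K = 1 + r * Nat.card G := by
  classical
  have := Fintype.ofFinite K
  rw [Nat.card_eq_fintype_card, h.card_eq, h.card_S]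

/-- The dichotomy: small finite field, or full. -/
theorem QData.full_or_small (h : QData p K G f) :
    Full p.2 ∨ (Finite K ∧ Nat.card K ≤ 16 * r ^ 4) := by
  classical
  obtain ⟨hs, h0, hf, hm, ha⟩ := id h
  by_cases hK : Finite K
  · by_cases hc : Nat.card K ≤ 16 * r ^ 4
    · exact Or.inr ⟨hK, hc⟩
    left
    push Not at hc
    have := Fintype.ofFinite K
    apply h.full
    intro c
    by_cases hc0 : c = 0
    · exact ⟨1, G.one_mem, 1, G.one_mem, by simp [hc0]⟩
    by_contra hcon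
    push Not at hcon
    have hb := card_bound (Finset.univ.filter (fun x : K => ∃ g ∈ G, x = (g : K)))
      (by
        intro a ha b hb
        simp only [Finset.mem_filter, Finset.mem_univ, true_and] at ha hb ⊢
        obtain ⟨g, hg, rfl⟩ := ha
        obtain ⟨k, hk, rfl⟩ := hb
        exact ⟨g * k, G.mul_mem hg hk, by push_cast; rfl⟩) c hc0
      (by
        intro g hg k hk l hl
        simp only [Finset.mem_filter, Finset.mem_univ, true_and] at hg hk hl
        obtain ⟨g, hg, rfl⟩ := hg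
        obtain ⟨k, hk, rfl⟩ := hk
        obtain ⟨l, hl, rfl⟩ := hl
        intro he
        apply hcon (g * l⁻¹) (G.mul_mem hg (G.inv_mem hl)) (k * l⁻¹) (G.mul_mem hk (G.inv_mem hl))
        have hl0 : (l : K) ≠ 0 := l.ne_zero
        push_cast
        field_simp
        exact he)
    rw [h.card_S, ← Nat.card_eq_fintype_card] at hb
    have hN := h.natCard
    set n := Nat.card G
    set q := Nat.card K
    have hq2 : 2 ≤ q := by
      have : 1 < Nat.card K := Finite.one_lt_card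
      exact this
    have hr := h.pos
    obtain ⟨k, hk⟩ : ∃ k, q = k + 1 := ⟨q - 1, by omega⟩
    have hk' : k = r * n := by omega
    have h1 : (2 * k) ^ 4 < q ^ 4 := by
      calc (2 * k) ^ 4 = 16 * r ^ 4 * n ^ 4 := by rw [hk']; ring
        _ ≤ 16 * r ^ 4 * q ^ 3 := Nat.mul_le_mul_left _ hb
        _ < q * q ^ 3 := Nat.mul_lt_mul_of_pos_right hc (by positivity)
        _ = q ^ 4 := by ring
    have h2 : 2 * k < q := lt_of_pow_lt_pow_left₀ 4 (Nat.zero_le _) h1
    omega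
  · left
    have : Infinite K := not_finite_iff_infinite.mp hK
    exact h.full (fun c => diff_infinite G f hf c)

end

theorem mem_iff_pow {K : Type} [Field K] [Finite K] (G : Subgroup Kˣ) (g : Kˣ) :
    g ∈ G ↔ g ^ Nat.card G = 1 := by
  classical
  have := Fintype.ofFinite K
  have hn : 0 < Nat.card G := Nat.card_pos
  have : NeZero (Nat.card G) := ⟨hn.ne'⟩
  have hle : G ≤ rootsOfUnity (Nat.card G) K := by
    intro x hx
    rw [mem_rootsOfUnity]
    have := pow_card_eq_one' (x := (⟨x, hx⟩ : G))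
    exact congrArg Subtype.val this
  have hcard : Nat.card (rootsOfUnity (Nat.card G) K) ≤ Nat.card G := by
    exact card_rootsOfUnity K (Nat.card G)
  have heq : G = rootsOfUnity (Nat.card G) K := by
    apply SetLike.coe_injective
    exact Set.eq_of_subset_of_ncard_le hle hcard
  constructor
  · intro hg
    exact (mem_rootsOfUnity _ _).mp (hle hg)
  · intro hg
    rw [heq]
    exact (mem_rootsOfUnity _ _).mpr hg

theorem iso_of_card {r : ℕ} {p q : P r} {K L : Type} [Field K] [Field L] {G : Subgroup Kˣ}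
    {H : Subgroup Lˣ} {f : K → Fin (r+1)} {f' : L → Fin (r+1)} (h : QData p K G f)
    (h' : QData q L H f') [Finite K] [Finite L] (hc : Nat.card K = Nat.card L) : Iso p q := by
  classical
  have := Fintype.ofFinite K
  have := Fintype.ofFinite L
  have hr := h.pos
  have hGH : Nat.card G = Nat.card H := by
    have h1 := h.natCard
    have h2 := h'.natCard
    have : r * Nat.card G = r * Nat.card H := by omega
    exact Nat.eq_of_mul_eq_mul_left hr this
  have hc' : Fintype.card K = Fintype.card L := by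
    rwa [Nat.card_eq_fintype_card, Nat.card_eq_fintype_card] at hc
  let φ : K ≃+* L := FiniteField.ringEquivOfCardEq hc'
  obtain ⟨hs, h0, hf, hm, ha⟩ := id h
  obtain ⟨hs', h0', hf', hm', ha'⟩ := id h'
  have hmem : ∀ g : Kˣ, g ∈ G ↔ Units.map (φ : K →* L) g ∈ H := by
    intro g
    rw [mem_iff_pow, mem_iff_pow, hGH, ← map_pow]
    constructor
    · intro h; rw [h, map_one]
    · intro h
      have : Function.Injective (Units.map (φ : K →* L)) :=
        Units.map_injective φ.injective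
      apply this
      rw [h, map_one]
  have hmem' : ∀ k : Lˣ, k ∈ H → ∃ g ∈ G, Units.map (φ : K →* L) g = k := by
    intro k hk
    have hk' : Units.map (φ : K →* L) (Units.map (φ.symm : L →* K) k) = k := by
      ext; simp
    refine ⟨Units.map (φ.symm : L →* K) k, ?_, hk'⟩
    rw [hmem, hk']
    exact hk
  have hiff : ∀ x y : K, f x = f y ↔ f' (φ x) = f' (φ y) := by
    intro x y
    rw [hf, hf']
    constructor
    · rintro ⟨g, hg, rfl⟩
      exact ⟨_, (hmem g).mp hg, by simp⟩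
    · rintro ⟨k, hk, he⟩
      obtain ⟨g, hg, rfl⟩ := hmem' k hk
      refine ⟨g, hg, ?_⟩
      apply φ.injective
      simpa using he
  let e0 : Fin (r+1) → Fin (r+1) := fun k => f' (φ (Function.surjInv hs k))
  have he0 : ∀ x : K, e0 (f x) = f' (φ x) := by
    intro x
    show f' (φ (Function.surjInv hs (f x))) = f' (φ x)
    rw [← hiff]
    exact Function.surjInv_eq hs (f x)
  have hbij : Function.Bijective e0 := by
    constructor
    · intro a b hab
      obtain ⟨x, rfl⟩ := hs a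
      obtain ⟨y, rfl⟩ := hs b
      rw [he0, he0] at hab
      exact (hiff x y).mpr hab
    · intro b
      obtain ⟨y, rfl⟩ := hs' b
      refine ⟨f (φ.symm y), ?_⟩
      rw [he0]
      simp
  refine ⟨Equiv.ofBijective e0 hbij, ?_⟩
  intro a b
  obtain ⟨x, rfl⟩ := hs a
  obtain ⟨y, rfl⟩ := hs b
  simp only [Equiv.ofBijective_apply]
  refine ⟨?_, ?_⟩
  · rw [← hm, he0, he0, he0, ← hm', map_mul]
  · rw [ha, he0, he0, ha']
    ext z
    constructor
    · rintro ⟨_, ⟨g, hg, k, hk, rfl⟩, rfl⟩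
      refine ⟨_, (hmem g).mp hg, _, (hmem k).mp hk, ?_⟩
      show e0 _ = _
      rw [he0]
      simp
    · rintro ⟨g, hg, k, hk, rfl⟩
      obtain ⟨g, hg1, rfl⟩ := hmem' g hg
      obtain ⟨k, hk1, rfl⟩ := hmem' k hk
      refine ⟨_, ⟨g, hg1, k, hk1, rfl⟩, ?_⟩
      show e0 _ = _
      rw [he0]
      simp

end Run7.h83.HF
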