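import Mathlib
import Pool.Agent.Run7.h83.HF.Quot
import Pool.Agent.Run7.h83.HF.HAdd

/-!
From labelled counts to isomorphism classes.
-/

set_option autoImplicit false

namespace Run7.h83.HF

open Finset

/-! ### general counting -/

theorem ncard_le_mul {α β : Type*} [Finite α] (S : Set α) (f : α → β) (n : ℕ)
    (h : ∀ a ∈ S, Set.ncard {x | x ∈ S ∧ f x = f a} ≤ n) : S.ncard ≤ n * (f '' S).ncard := by
  classical
  have := Fintype.ofFinite α
  let F : Finset α := univ.filter (· ∈ S)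
  have hF : (F : Set α) = S := by ext; simp [F]
  have h1 := Finset.card_le_mul_card_image (f := f) F n (by
    intro b hb
    obtain ⟨a, ha, rfl⟩ := mem_image.mp hb
    have ha' : a ∈ S := by rw [← hF]; exact ha
    have h2 := h a ha'
    rw [← Set.ncard_coe_finset]
    convert h2 using 2
    ext x
    simp [F])
  rw [← Set.ncard_coe_finset, hF] at h1
  rw [← Set.ncard_coe_finset (F.image f), coe_image, hF] at h1
  exact h1

theorem mul_ncard_le {α β : Type*} [Finite α] (S : Set α) (f : α → β) (n k : ℕ)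
    (h : ∀ a ∈ S, k ≤ n * Set.ncard {x | x ∈ S ∧ f x = f a}) :
    (f '' S).ncard * k ≤ n * S.ncard := by
  classical
  have := Fintype.ofFinite α
  let F : Finset α := univ.filter (· ∈ S)
  have hF : (F : Set α) = S := by ext; simp [F]
  have h0 : F.card = ∑ b ∈ F.image f, (F.filter (fun a => f a = b)).card :=
    Finset.card_eq_sum_card_image f F
  have h1 : (F.image f).card * k ≤ n * F.card := by
    rw [h0, Finset.mul_sum, ← smul_eq_mul, ← Finset.sum_const]
    apply Finset.sum_le_sum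
    intro b hb
    obtain ⟨a, ha, rfl⟩ := mem_image.mp hb
    have ha' : a ∈ S := by rw [← hF]; exact ha
    refine (h a ha').trans (le_of_eq ?_)
    rw [← Set.ncard_coe_finset]
    congr 2
    ext x
    simp [F]
  rw [← Set.ncard_coe_finset, ← Set.ncard_coe_finset F, coe_image, hF] at h1
  exact h1

/-- small generating sets -/
theorem exists_generating (A : Type*) [Group A] [Finite A] :
    ∃ S : Finset A, Subgroup.closure (S : Set A) = ⊤ ∧ 2 ^ S.card ≤ Nat.card A := by
  classical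
  have := Fintype.ofFinite A
  let F : Finset (Finset A) :=
    univ.filter (fun S => 2 ^ S.card ≤ Nat.card (Subgroup.closure (S : Set A)))
  have hF : F.Nonempty := ⟨∅, by simp [F]⟩
  obtain ⟨S, hS, hmax⟩ := Finset.exists_max_image F
    (fun S => Nat.card (Subgroup.closure (S : Set A))) hF
  have hS' : 2 ^ S.card ≤ Nat.card (Subgroup.closure (S : Set A)) := by simpa [F] using hS
  refine ⟨S, ?_, hS'.trans (Subgroup.card_le_card_group _)⟩
  by_contra hne
  obtain ⟨g, hg⟩ : ∃ g : A, g ∉ Subgroup.closure (S : Set A) := by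
    by_contra hcon
    push Not at hcon
    exact hne (Subgroup.eq_top_iff' _ |>.mpr hcon)
  set H := Subgroup.closure (S : Set A) with hH
  set H' := Subgroup.closure ((insert g S : Finset A) : Set A) with hH'
  have hle : H ≤ H' := Subgroup.closure_mono (by simp)
  have hgH' : g ∈ H' := Subgroup.subset_closure (by simp)
  have hlt : H < H' := lt_of_le_of_ne hle (by rintro h; exact hg (h ▸ hgH'))
  have hdvd : Nat.card H ∣ Nat.card H' := Subgroup.card_dvd_of_le hle
  have hcardlt : Nat.card H < Nat.card H' := by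
    have : (H : Set A) ⊂ (H' : Set A) := hlt
    exact Set.ncard_lt_ncard this (Set.toFinite _)
  have h2 : 2 * Nat.card H ≤ Nat.card H' := by
    obtain ⟨c, hc⟩ := hdvd
    have hpos : 0 < Nat.card H := Nat.card_pos
    rcases c with _ | _ | c
    · omega
    · omega
    · rw [hc]; nlinarith
  have hmem : insert g S ∈ F := by
    simp only [F, mem_filter, mem_univ, true_and]
    have hgS : g ∉ S := fun h => hg (Subgroup.subset_closure h)
    rw [card_insert_of_notMem hgS, pow_succ]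
    have : 2 ^ S.card * 2 ≤ Nat.card H' := by omega
    exact this
  have := hmax _ hmem
  have h3 : Nat.card H' ≤ Nat.card H := this
  omega

/-! ### the multiplicative structure -/

/-- a type synonym -/
def Y (r : ℕ) : Type := Fin (r+1)

instance (r : ℕ) : Fintype (Y r) := inferInstanceAs (Fintype (Fin (r+1)))

open Classical in
/-- the group with zero attached to a multiplication -/
@[reducible] noncomputable def cgz {r : ℕ} (m : Fin (r+1) → Fin (r+1) → Fin (r+1)) (hm : MulAx m) :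
    CommGroupWithZero (Y r) where
  mul := m
  mul_assoc := hm.2.2.1
  one := hm.1.choose
  one_mul := hm.1.choose_spec.2
  mul_one := fun a => (hm.2.1 a _).trans (hm.1.choose_spec.2 a)
  zero := (0 : Fin (r+1))
  zero_mul := hm.2.2.2.1
  mul_zero := fun a => (hm.2.1 a _).trans (hm.2.2.2.1 a)
  mul_comm := hm.2.1
  inv := fun a => if h : a = (0 : Fin (r+1)) then (0 : Fin (r+1)) else
    (hm.2.2.2.2.2 a h).choose
  exists_pair_ne := ⟨(0 : Fin (r+1)), hm.1.choose, (hm.1.choose_spec.1).symm⟩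
  inv_zero := dif_pos rfl
  mul_inv_cancel := fun a ha => by
    have hu := hm.1.choose_spec.2
    have h1 : (if h : a = (0 : Fin (r+1)) then (0 : Fin (r+1)) else
      (hm.2.2.2.2.2 a h).choose) = (hm.2.2.2.2.2 a ha).choose := dif_neg ha
    show m a (if h : a = (0 : Fin (r+1)) then (0 : Fin (r+1)) else
      (hm.2.2.2.2.2 a h).choose) = hm.1.choose
    rw [h1]
    have h2 := (hm.2.2.2.2.2 a ha).choose_spec hm.1.choose
    have h3 := (hm.2.1 (m a (hm.2.2.2.2.2 a ha).choose) hm.1.choose)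
    rw [← h2, h3, hu]

theorem count_m {r : ℕ} (m : Fin (r+1) → Fin (r+1) → Fin (r+1)) (hm : MulAx m)
    (hbig : 2 * r ^ 4 * 3 ^ (r / 24) ≤ 4 ^ (r / 24)) :
    Set.ncard {s | WAx m s ∧ Full s} * 2 ^ (r / 6) ≤ 2 * Set.ncard {s | AddAx m s} ∧
    2 ^ (r * r / 6) ≤ 2 * Set.ncard {s | AddAx m s} := by
  let inst := cgz m hm
  have hcard : Nat.card (Y r)ˣ = r := by
    rw [Nat.card_units, Nat.card_eq_fintype_card]
    show Fintype.card (Fin (r+1)) - 1 = r
    simp
  exact main_count (X := Y r) hcard hbig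

/-- automorphisms fixing a small set are trivial -/
theorem exists_base {r : ℕ} (m : Fin (r+1) → Fin (r+1) → Fin (r+1)) (hm : MulAx m) :
    ∃ S : Finset (Fin (r+1)), S.card ≤ Nat.log 2 r ∧
      ∀ φ : Fin (r+1) ≃ Fin (r+1), φ 0 = 0 → (∀ a b, φ (m a b) = m (φ a) (φ b)) →
        (∀ a ∈ S, φ a = a) → ∀ a, φ a = a := by
  classical
  let inst := cgz m hm
  have hcard : Nat.card (Y r)ˣ = r := by
    rw [Nat.card_units, Nat.card_eq_fintype_card]
    show Fintype.card (Fin (r+1)) - 1 = r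
    simp
  obtain ⟨S, hS, hSc⟩ := exists_generating (Y r)ˣ
  rw [hcard] at hSc
  let S' : Finset (Y r) := S.image (fun u : (Y r)ˣ => (u : Y r))
  refine ⟨S', ?_, ?_⟩
  · have h1 : S.card ≤ Nat.log 2 r := Nat.le_log_of_pow_le (by norm_num) hSc
    have h2 : S'.card ≤ S.card := Finset.card_image_le
    exact h2.trans h1
  · intro φ h0 hφ hfix a
    -- the monoid hom
    let φ' : Y r → Y r := φ
    have hmul : ∀ a b : Y r, φ' (a * b) = φ' a * φ' b := hφ
    have h0' : φ' 0 = 0 := h0
    have hne : ∀ a : Y r, a ≠ 0 → φ' a ≠ 0 := by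
      intro a ha h
      apply ha
      have : φ' a = φ' 0 := by rw [h0', h]
      exact φ.injective this
    have h1 : φ' 1 = 1 := by
      have h2 : φ' 1 * φ' 1 = φ' 1 * 1 := by
        rw [mul_one, ← hmul, one_mul]
      exact mul_left_cancel₀ (hne 1 one_ne_zero) h2
    let ψ : Y r →* Y r := { toFun := φ', map_one' := h1, map_mul' := hmul }
    have hψ : Units.map ψ = MonoidHom.id (Y r)ˣ := by
      apply MonoidHom.eq_of_eqOn_dense hS
      intro u hu
      apply Units.ext
      have : (u : Y r) ∈ S' := mem_image.mpr ⟨u, hu, rfl⟩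
      exact hfix _ this
    rcases zero_or_unit (X := Y r) a with h | ⟨u, h⟩
    · rw [h]; exact h0
    · have h2 := congrArg (fun F : (Y r)ˣ →* (Y r)ˣ => ((F u : (Y r)ˣ) : Y r)) hψ
      have h3 : φ' (u : Y r) = (u : Y r) := h2
      rw [h]
      exact h3

/-! ### isomorphisms -/

/-- transport of structure -/
def act {r : ℕ} (e : Equiv.Perm (Fin (r+1))) (p : P r) : P r :=
  (fun a b => e (p.1 (e.symm a) (e.symm b)), fun a b => e '' p.2 (e.symm a) (e.symm b))

theorem act_iff {r : ℕ} (e : Equiv.Perm (Fin (r+1))) (p q : P r) :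
    (∀ a b, e (p.1 a b) = q.1 (e a) (e b) ∧ e '' p.2 a b = q.2 (e a) (e b)) ↔ act e p = q := by
  constructor
  · intro h
    apply Prod.ext
    · funext a b
      have := (h (e.symm a) (e.symm b)).1
      simpa [act] using this
    · funext a b
      have := (h (e.symm a) (e.symm b)).2
      simpa [act] using this
  · rintro rfl a b
    simp [act]

theorem iso_iff {r : ℕ} (p q : P r) : Iso p q ↔ ∃ e, act e p = q := by
  unfold Iso
  simp_rw [act_iff]

theorem act_act {r : ℕ} (e e' : Equiv.Perm (Fin (r+1))) (p : P r) :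
    act e (act e' p) = act (e'.trans e) p := by
  apply Prod.ext
  · funext a b
    simp [act]
  · funext a b
    simp [act, Set.image_image]

theorem act_refl {r : ℕ} (p : P r) : act (Equiv.refl _) p = p := by
  apply Prod.ext
  · funext a b
    simp [act]
  · funext a b
    simp [act]

theorem Iso.refl {r : ℕ} (p : P r) : Iso p p := (iso_iff p p).mpr ⟨_, act_refl p⟩

theorem Iso.symm {r : ℕ} {p q : P r} (h : Iso p q) : Iso q p := by
  rw [iso_iff] at *
  obtain ⟨e, rfl⟩ := h
  exact ⟨e.symm, by rw [act_act]; simp [act_refl]⟩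

theorem Iso.trans {r : ℕ} {p q t : P r} (h : Iso p q) (h' : Iso q t) : Iso p t := by
  rw [iso_iff] at *
  obtain ⟨e, rfl⟩ := h
  obtain ⟨e', rfl⟩ := h'
  exact ⟨_, (act_act _ _ _).symm⟩

theorem isQ_act {r : ℕ} {p : P r} (hp : IsQ p) (e : Equiv.Perm (Fin (r+1))) (he : e 0 = 0) :
    IsQ (act e p) := by
  obtain ⟨K, _, G, f, hs, h0, hf, hm, ha⟩ := hp
  refine ⟨K, _, G, fun x => e (f x), e.surjective.comp hs, by simp [h0, he], ?_, ?_, ?_⟩
  · intro x y
    rw [e.injective.eq_iff, hf]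
  · intro x y
    simp [act, hm]
  · intro x y
    simp only [act, Equiv.symm_apply_apply, ha]
    ext z
    constructor
    · rintro ⟨_, ⟨g, hg, k, hk, rfl⟩, rfl⟩
      exact ⟨g, hg, k, hk, rfl⟩
    · rintro ⟨g, hg, k, hk, rfl⟩
      exact ⟨_, ⟨g, hg, k, hk, rfl⟩, rfl⟩

theorem full_act {r : ℕ} {p : P r} (hp : Full p.2) (e : Equiv.Perm (Fin (r+1))) (he : e 0 = 0) :
    Full (act e p).2 := by
  have he' : e.symm 0 = 0 := by rw [Equiv.symm_apply_eq, he]
  intro a b ha hab
  have h1 : (0 : Fin (r+1)) ∈ p.2 (e.symm a) (e.symm b) := by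
    obtain ⟨x, hx, hx0⟩ := hab
    have : x = 0 := by apply e.injective; rw [hx0, he]
    rwa [this] at hx
  have h2 := hp (e.symm a) (e.symm b) (by
    intro h; apply ha; rw [Equiv.symm_apply_eq, he] at h; exact h) h1
  show e '' p.2 (e.symm a) (e.symm b) = Set.univ
  rw [h2, Set.image_univ, e.range_eq_univ]

theorem iso_zero {r : ℕ} {p q : P r} (hp : MulAx p.1) (hq : MulAx q.1)
    {e : Equiv.Perm (Fin (r+1))} (he : act e p = q) : e 0 = 0 := by
  have h := (act_iff e p q).mpr he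
  have h1 : ∀ a, e 0 = q.1 (e 0) (e a) := fun a => by
    rw [← (h 0 a).1, hp.2.2.2.1]
  have h2 := h1 (e.symm 0)
  rw [Equiv.apply_symm_apply, hq.2.1, hq.2.2.2.1] at h2
  exact h2

/-! ### classes -/

/-- classes of hyperfields -/
def HC (r : ℕ) : Set (Set (P r)) := {C | ∃ p : P r, IsH p ∧ C = {q | IsH q ∧ Iso p q}}

/-- classes of quotient hyperfields -/
def QC (r : ℕ) : Set (Set (P r)) := {C | ∃ p : P r, IsQ p ∧ C = {q | IsQ q ∧ Iso p q}}

theorem class_eq {r : ℕ} {I : P r → Prop} {p q : P r} (hq : I q)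
    (h : {x | I x ∧ Iso q x} = {x | I x ∧ Iso p x}) : Iso p q := by
  have : q ∈ {x | I x ∧ Iso q x} := ⟨hq, Iso.refl q⟩
  rw [h] at this
  exact this.2

theorem HC_bound (r : ℕ) :
    Set.ncard {p : P r | IsH p} ≤ Nat.factorial (r+1) * Set.ncard (HC r) := by
  classical
  have h := ncard_le_mul {p : P r | IsH p} (fun p => {q | IsH q ∧ Iso p q})
    (Nat.factorial (r+1)) (by
      intro p _
      have hsub : {x | x ∈ {p : P r | IsH p} ∧ {q | IsH q ∧ Iso x q} = {q | IsH q ∧ Iso p q}} ⊆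
          Set.range (fun e : Equiv.Perm (Fin (r+1)) => act e p) := by
        rintro x ⟨hx, he⟩
        obtain ⟨e, he⟩ := (iso_iff p x).mp (class_eq (I := IsH) hx he)
        exact ⟨e, he⟩
      refine (Set.ncard_le_ncard hsub (Set.toFinite _)).trans ?_
      rw [← Set.image_univ]
      refine (Set.ncard_image_le (Set.toFinite _)).trans ?_
      rw [Set.ncard_univ, Nat.card_eq_fintype_card, Fintype.card_perm, Fintype.card_fin])
  refine h.trans (le_of_eq ?_)
  congr 2
  ext C
  simp only [HC, Set.mem_image, Set.mem_ofPred_eq]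
  constructor
  · rintro ⟨p, hp, rfl⟩; exact ⟨p, hp, rfl⟩
  · rintro ⟨p, hp, rfl⟩; exact ⟨p, hp, rfl⟩

/-- full quotient structures -/
def QF (r : ℕ) : Set (P r) := {p | IsQ p ∧ Full p.2}

theorem QF_bound (r : ℕ) :
    ((fun p : P r => {q | IsQ q ∧ Iso p q}) '' QF r).ncard * Nat.factorial r ≤
      (r+1) ^ (Nat.log 2 r) * (QF r).ncard := by
  classical
  apply mul_ncard_le
  intro p hp
  obtain ⟨hpQ, hpF⟩ := hp
  have hpM : MulAx p.1 := by
    obtain ⟨K, _, G, f, h⟩ := hpQ
    exact h.mulAx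
  let Γ : Set (Equiv.Perm (Fin (r+1))) := {e | e 0 = 0}
  have hΓ : Nat.factorial r ≤ Γ.ncard := by
    have h1 : (Set.range (fun σ : Equiv.Perm (Fin r) =>
        Equiv.Perm.decomposeFin.symm ((0 : Fin (r+1)), σ))) ⊆ Γ := by
      rintro _ ⟨σ, rfl⟩
      exact Equiv.Perm.decomposeFin_symm_apply_zero 0 σ
    have h2 : Function.Injective (fun σ : Equiv.Perm (Fin r) =>
        Equiv.Perm.decomposeFin.symm ((0 : Fin (r+1)), σ)) := by
      intro a b hab
      have := Equiv.Perm.decomposeFin.symm.injective hab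
      exact (Prod.ext_iff.mp this).2
    calc Nat.factorial r = Nat.card (Equiv.Perm (Fin r)) := by
          rw [Nat.card_eq_fintype_card, Fintype.card_perm, Fintype.card_fin]
      _ = (Set.range (fun σ : Equiv.Perm (Fin r) =>
        Equiv.Perm.decomposeFin.symm ((0 : Fin (r+1)), σ))).ncard :=
          (Set.ncard_range_of_injective h2).symm
      _ ≤ _ := Set.ncard_le_ncard h1 (Set.toFinite _)
  obtain ⟨S, hSc, hS⟩ := exists_base p.1 hpM
  have h1 := ncard_le_mul Γ (fun e => act e p) ((r+1) ^ (Nat.log 2 r)) (by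
    intro e he
    have hinj : Set.InjOn (fun (e' : Equiv.Perm (Fin (r+1))) (s : S) => e' s)
        {x | x ∈ Γ ∧ act x p = act e p} := by
      rintro x ⟨hx, hxe⟩ y ⟨hy, hye⟩ hxy
      have hxy' : act x p = act y p := hxe.trans hye.symm
      have hφ := hS (x.trans y.symm) (by
          show y.symm (x 0) = 0
          have hx' : x 0 = 0 := hx
          have hy' : y 0 = 0 := hy
          rw [hx', Equiv.symm_apply_eq, hy']) (by
          intro a b
          have h2 := ((act_iff x p (act y p)).mpr hxy' a b).1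
          show y.symm (x (p.1 a b)) = p.1 (y.symm (x a)) (y.symm (x b))
          rw [h2]
          simp [act]) (by
          intro a ha
          show y.symm (x a) = a
          rw [Equiv.symm_apply_eq]
          exact congrFun hxy ⟨a, ha⟩)
      apply Equiv.ext
      intro a
      have h3 := hφ a
      have h4 : y.symm (x a) = a := h3
      rwa [Equiv.symm_apply_eq] at h4
    rw [← Set.InjOn.ncard_image hinj]
    refine (Set.ncard_le_ncard (Set.subset_univ _) (Set.toFinite _)).trans ?_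
    rw [Set.ncard_univ, Nat.card_eq_fintype_card, Fintype.card_fun, Fintype.card_fin,
      Fintype.card_coe]
    exact Nat.pow_le_pow_right (Nat.succ_pos r) hSc)
  refine (hΓ.trans h1).trans ?_
  apply Nat.mul_le_mul_left
  apply Set.ncard_le_ncard _ (Set.toFinite _)
  rintro _ ⟨e, he, rfl⟩
  refine ⟨⟨isQ_act hpQ e he, full_act hpF e he⟩, ?_⟩
  ext q
  simp only [Set.mem_ofPred_eq]
  have hiso : Iso p (act e p) := (iso_iff _ _).mpr ⟨e, rfl⟩
  constructor
  · rintro ⟨hq, h⟩; exact ⟨hq, hiso.trans h⟩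
  · rintro ⟨hq, h⟩; exact ⟨hq, hiso.symm.trans h⟩

/-! ### summing over multiplications -/

theorem sum_over_m {r : ℕ} (hbig : 2 * r ^ 4 * 3 ^ (r / 24) ≤ 4 ^ (r / 24)) :
    (QF r).ncard * 2 ^ (r / 6) ≤ 2 * Set.ncard {p : P r | IsH p} := by
  classical
  have hsub : QF r ⊆ {p : P r | MulAx p.1 ∧ WAx p.1 p.2 ∧ Full p.2} := by
    rintro p ⟨⟨K, _, G, f, h⟩, hF⟩
    exact ⟨h.mulAx, h.wAx, hF⟩
  have key : ∀ Q : P r → Prop, Set.ncard {p : P r | Q p} =
      ∑ m : Fin (r+1) → Fin (r+1) → Fin (r+1), Set.ncard {s | Q (m, s)} := by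
    intro Q
    have h1 : Set.ncard {p : P r | Q p} = (univ.filter (fun p : P r => Q p)).card := by
      rw [← Set.ncard_coe_finset]; congr 1; ext; simp
    have h2 : ∀ m : Fin (r+1) → Fin (r+1) → Fin (r+1),
        Set.ncard {s | Q (m, s)} = (univ.filter (fun s => Q (m, s))).card := by
      intro m
      rw [← Set.ncard_coe_finset]; congr 1; ext; simp
    rw [h1, Finset.card_filter, Fintype.sum_prod_type]
    apply Finset.sum_congr rfl
    intro m _
    rw [h2, Finset.card_filter]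
  refine (Nat.mul_le_mul_right _ (Set.ncard_le_ncard hsub (Set.toFinite _))).trans ?_
  rw [key, key, Finset.sum_mul, Finset.mul_sum]
  apply Finset.sum_le_sum
  intro m _
  by_cases hm : MulAx m
  · have h := (count_m m hm hbig).1
    simp only [IsH, hm, true_and]
    exact h
  · simp [hm]

theorem H_lower {r : ℕ} (hbig : 2 * r ^ 4 * 3 ^ (r / 24) ≤ 4 ^ (r / 24)) {p : P r}
    (hp : IsQ p) : 2 ^ (r * r / 6) ≤ 2 * Set.ncard {p : P r | IsH p} := by
  have hpM : MulAx p.1 := by
    obtain ⟨K, _, G, f, h⟩ := hp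
    exact h.mulAx
  refine (count_m p.1 hpM hbig).2.trans (Nat.mul_le_mul_left _ ?_)
  have hinj : Function.Injective (fun s : Fin (r+1) → Fin (r+1) → Set (Fin (r+1)) =>
      ((p.1, s) : P r)) := by
    intro a b h
    exact (Prod.ext_iff.mp h).2
  rw [← Set.ncard_image_of_injective _ hinj]
  apply Set.ncard_le_ncard _ (Set.toFinite _)
  rintro _ ⟨s, hs, rfl⟩
  exact ⟨hpM, hs⟩

/-! ### small fields -/

/-- quotient structures from small fields -/
def QS (r : ℕ) : Set (P r) := {p | ∃ (K : Type) (_ : Field K), ∃ G : Subgroup Kˣ,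
  ∃ f : K → Fin (r+1), QData p K G f ∧ Finite K ∧ Nat.card K ≤ 16 * r ^ 4}

theorem QS_bound (r : ℕ) :
    ((fun p : P r => {q | IsQ q ∧ Iso p q}) '' QS r).ncard ≤ 16 * r ^ 4 + 1 := by
  classical
  -- choose a cardinality for every class
  have hch : ∀ C ∈ (fun p : P r => {q | IsQ q ∧ Iso p q}) '' QS r, ∃ n : ℕ, n < 16 * r ^ 4 + 1 ∧
      ∃ p : P r, C = {q | IsQ q ∧ Iso p q} ∧ ∃ (K : Type) (_ : Field K), ∃ G : Subgroup Kˣ,
        ∃ f : K → Fin (r+1), QData p K G f ∧ Finite K ∧ Nat.card K = n := by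
    rintro _ ⟨p, ⟨K, _, G, f, h, hK, hn⟩, rfl⟩
    exact ⟨Nat.card K, Nat.lt_succ_of_le hn, p, rfl, K, _, G, f, h, hK, rfl⟩
  choose! ν hν hν' using hch
  have hinj : Set.InjOn ν ((fun p : P r => {q | IsQ q ∧ Iso p q}) '' QS r) := by
    intro C hC D hD hCD
    obtain ⟨p, hp, K, _, G, f, h, hK, hn⟩ := hν' C hC
    obtain ⟨q, hq, L, _, H, f', h', hL, hn'⟩ := hν' D hD
    have hiso : Iso p q := iso_of_card h h' (by rw [hn, hn', hCD])
    rw [hp, hq]
    ext x
    constructor
    · rintro ⟨h1, h2⟩; exact ⟨h1, hiso.symm.trans h2⟩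
    · rintro ⟨h1, h2⟩; exact ⟨h1, hiso.trans h2⟩
  rw [← Set.InjOn.ncard_image hinj]
  have hsub : ν '' ((fun p : P r => {q | IsQ q ∧ Iso p q}) '' QS r) ⊆
      ((Finset.range (16 * r ^ 4 + 1) : Finset ℕ) : Set ℕ) := by
    rintro _ ⟨C, hC, rfl⟩
    rw [Finset.coe_range]
    exact hν C hC
  refine (Set.ncard_le_ncard hsub (Finset.finite_toSet _)).trans ?_
  rw [Set.ncard_coe_finset, Finset.card_range]

theorem QC_le (r : ℕ) : (QC r).ncard ≤
    ((fun p : P r => {q | IsQ q ∧ Iso p q}) '' QF r).ncard +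
    ((fun p : P r => {q | IsQ q ∧ Iso p q}) '' QS r).ncard := by
  refine le_trans (Set.ncard_le_ncard ?_ (Set.toFinite _)) (Set.ncard_union_le _ _)
  rintro _ ⟨p, ⟨K, _, G, f, h⟩, rfl⟩
  rcases h.full_or_small with hF | ⟨hK, hn⟩
  · exact Or.inl ⟨p, ⟨⟨K, _, G, f, h⟩, hF⟩, rfl⟩
  · exact Or.inr ⟨p, ⟨K, _, G, f, h, hK, hn⟩, rfl⟩

/-- The combined finite inequality. -/
theorem main_ineq {r : ℕ} (hbig : 2 * r ^ 4 * 3 ^ (r / 24) ≤ 4 ^ (r / 24)) :
    ∃ a b : ℕ, (QC r).ncard ≤ a + b ∧
      a * 2 ^ (r / 6) ≤ 2 * (r + 1) ^ (Nat.log 2 r + 1) * (HC r).ncard ∧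
      b * 2 ^ (r * r / 6) ≤ (16 * r ^ 4 + 1) * (2 * Nat.factorial (r + 1)) * (HC r).ncard := by
  refine ⟨_, _, QC_le r, ?_, ?_⟩
  · have h1 := QF_bound r
    have h2 := sum_over_m hbig
    have h3 := HC_bound r
    have hf : 0 < Nat.factorial r := Nat.factorial_pos r
    apply Nat.le_of_mul_le_mul_right _ hf
    calc _ = (((fun p : P r => {q | IsQ q ∧ Iso p q}) '' QF r).ncard * Nat.factorial r) *
            2 ^ (r / 6) := by ring
      _ ≤ ((r+1) ^ (Nat.log 2 r) * (QF r).ncard) * 2 ^ (r / 6) := Nat.mul_le_mul_right _ h1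
      _ = (r+1) ^ (Nat.log 2 r) * ((QF r).ncard * 2 ^ (r / 6)) := by ring
      _ ≤ (r+1) ^ (Nat.log 2 r) * (2 * Set.ncard {p : P r | IsH p}) :=
          Nat.mul_le_mul_left _ h2
      _ ≤ (r+1) ^ (Nat.log 2 r) * (2 * (Nat.factorial (r+1) * (HC r).ncard)) :=
          Nat.mul_le_mul_left _ (Nat.mul_le_mul_left _ h3)
      _ = _ := by rw [Nat.factorial_succ, pow_succ]; ring
  · by_cases hne : (QS r).Nonempty
    · obtain ⟨p, K, _, G, f, h, _⟩ := hne
      have hp : IsQ p := ⟨K, _, G, f, h⟩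
      have h1 := H_lower hbig hp
      have h2 := HC_bound r
      calc _ ≤ (16 * r ^ 4 + 1) * 2 ^ (r * r / 6) := Nat.mul_le_mul_right _ (QS_bound r)
        _ ≤ (16 * r ^ 4 + 1) * (2 * Set.ncard {p : P r | IsH p}) := Nat.mul_le_mul_left _ h1
        _ ≤ (16 * r ^ 4 + 1) * (2 * (Nat.factorial (r+1) * (HC r).ncard)) :=
            Nat.mul_le_mul_left _ (Nat.mul_le_mul_left _ h2)
        _ = _ := by ring
    · rw [Set.not_nonempty_iff_eq_empty] at hne
      rw [hne]
      simp

end Run7.h83.HF
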