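import Mathlib
import Pool.Agent.Run7.h83.HF.Classes

/-!
The limit.
-/

set_option autoImplicit false

namespace Run7.h83.HF

open Filter Topology

theorem ev_big : ∀ᶠ r : ℕ in atTop, 2 * r ^ 4 * 3 ^ (r / 24) ≤ 4 ^ (r / 24) := by
  have h0 : Tendsto (fun n : ℕ => (n : ℝ) ^ 4 * (3 / 4 : ℝ) ^ n) atTop (𝓝 0) :=
    tendsto_pow_const_mul_const_pow_of_abs_lt_one 4 (by rw [abs_of_pos] <;> norm_num)
  have h1 : ∀ᶠ n : ℕ in atTop, (n : ℝ) ^ 4 * (3 / 4 : ℝ) ^ n < (3 / 4) / (2 * 24 ^ 4) :=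
    h0.eventually (gt_mem_nhds (by norm_num))
  obtain ⟨k0, hk0⟩ := eventually_atTop.mp h1
  rw [eventually_atTop]
  refine ⟨24 * k0, fun r hr => ?_⟩
  set k := r / 24 with hk
  have hk' : k0 ≤ k + 1 := by omega
  have h2 := hk0 (k + 1) hk'
  have h3 : r ≤ 24 * (k + 1) := by omega
  have h4 : (2 * (24 * (k + 1)) ^ 4 * 3 ^ k : ℕ) ≤ 4 ^ k := by
    have h5 : (2 * (24 * ((k : ℝ) + 1)) ^ 4 * 3 ^ k : ℝ) ≤ 4 ^ k := by
      have h6 : ((3 : ℝ) / 4) ^ (k + 1) = (3 / 4) * (3 ^ k / 4 ^ k) := by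
        rw [pow_succ, div_pow]; ring
      rw [h6] at h2
      push_cast at h2
      have hpos : (0 : ℝ) < 4 ^ k := by positivity
      have h7 : ((k : ℝ) + 1) ^ 4 * (3 ^ k / 4 ^ k) ≤ 1 / (2 * 24 ^ 4) := by
        nlinarith
      rw [← mul_div_assoc, div_le_iff₀ hpos] at h7
      nlinarith
    exact_mod_cast h5
  calc 2 * r ^ 4 * 3 ^ k ≤ 2 * (24 * (k + 1)) ^ 4 * 3 ^ k := by gcongr
    _ ≤ _ := h4

theorem log_small {r : ℕ} (hr : 2 ^ 12 ≤ r) : (Nat.log 2 r + 1) ^ 2 + 1 ≤ r / 12 := by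
  have h1 : ∀ n : ℕ, 12 ≤ n → 12 * ((n + 1) ^ 2 + 1) ≤ 2 ^ n := by
    intro n hn
    induction n, hn using Nat.le_induction with
    | base => norm_num
    | succ n hn ih =>
      have e : 2 ^ (n + 1) = 2 * 2 ^ n := by ring
      rw [e]
      nlinarith
  have h2 : 12 ≤ Nat.log 2 r := Nat.le_log_of_pow_le (by norm_num) hr
  have h3 := h1 _ h2
  have h4 : 2 ^ Nat.log 2 r ≤ r := Nat.pow_log_le_self 2 (by positivity)
  omega

theorem ratio_bound {r : ℕ} (hbig : 2 * r ^ 4 * 3 ^ (r / 24) ≤ 4 ^ (r / 24))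
    (hr : 2 ^ 12 ≤ r) :
    ((QC r).ncard : ℝ) / ((HC r).ncard : ℝ) ≤ 2 * (1 / 2 : ℝ) ^ (r / 12) := by
  obtain ⟨a, b, hab, ha, hb⟩ := main_ineq hbig
  set L := Nat.log 2 r + 1 with hL
  have hlog := log_small hr
  rw [← hL] at hlog
  have hrL : r + 1 ≤ 2 ^ L := Nat.lt_pow_succ_log_self (by norm_num) r
  set c := r / 12 with hc
  set H := (HC r).ncard with hH
  -- first
  have h1 : a * 2 ^ c ≤ H := by
    have e1 : 2 * (r + 1) ^ L ≤ 2 ^ c := by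
      calc 2 * (r + 1) ^ L ≤ 2 * (2 ^ L) ^ L := by gcongr
        _ = 2 ^ (L ^ 2 + 1) := by rw [← pow_mul, pow_succ 2 (L ^ 2)]; ring_nf
        _ ≤ 2 ^ c := Nat.pow_le_pow_right (by norm_num) hlog
    have e2 : 2 ^ c * 2 ^ c ≤ 2 ^ (r / 6) := by
      rw [← pow_add]
      exact Nat.pow_le_pow_right (by norm_num) (by omega)
    have hpos : 0 < 2 ^ c := by positivity
    apply Nat.le_of_mul_le_mul_right _ hpos
    calc a * 2 ^ c * 2 ^ c = a * (2 ^ c * 2 ^ c) := by ring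
      _ ≤ a * 2 ^ (r / 6) := Nat.mul_le_mul_left _ e2
      _ ≤ 2 * (r + 1) ^ L * H := ha
      _ ≤ 2 ^ c * H := Nat.mul_le_mul_right _ e1
      _ = H * 2 ^ c := by ring
  have h2 : b * 2 ^ c ≤ H := by
    have e1 : (16 * r ^ 4 + 1) * (2 * Nat.factorial (r + 1)) ≤ 2 ^ (6 + 4 * L + L * (r + 1)) := by
      have f1 : 16 * r ^ 4 + 1 ≤ 2 ^ (5 + 4 * L) := by
        have g1 : r ^ 4 ≤ (r + 1) ^ 4 := Nat.pow_le_pow_left (Nat.le_succ r) 4
        have g2 : 1 ≤ (r + 1) ^ 4 := Nat.one_le_pow _ _ (Nat.succ_pos r)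
        calc 16 * r ^ 4 + 1 ≤ 32 * (r + 1) ^ 4 := by omega
          _ ≤ 32 * (2 ^ L) ^ 4 := by gcongr
          _ = 2 ^ (5 + 4 * L) := by rw [← pow_mul, pow_add]; ring_nf
      have f2 : Nat.factorial (r + 1) ≤ 2 ^ (L * (r + 1)) := by
        calc Nat.factorial (r + 1) ≤ (r + 1) ^ (r + 1) := Nat.factorial_le_pow _
          _ ≤ (2 ^ L) ^ (r + 1) := by gcongr
          _ = _ := by rw [← pow_mul]
      calc (16 * r ^ 4 + 1) * (2 * Nat.factorial (r + 1))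
          ≤ 2 ^ (5 + 4 * L) * (2 * 2 ^ (L * (r + 1))) := by gcongr
        _ = _ := by rw [show 6 + 4 * L + L * (r + 1) = (5 + 4 * L) + 1 + L * (r + 1) by ring,
              pow_add, pow_succ]; ring
    have e2 : 6 + 4 * L + L * (r + 1) + c ≤ r * r / 6 := by
      have hLc : L ≤ c := by nlinarith
      have hcr : 12 * c ≤ r := by omega
      have h12 : 341 ≤ c := by omega
      rw [Nat.le_div_iff_mul_le (by norm_num)]
      have g1 : L * (r + 1) ≤ c * (r + 1) := Nat.mul_le_mul_right _ hLc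
      nlinarith
    have hpos : 0 < 2 ^ (6 + 4 * L + L * (r + 1)) := by positivity
    apply Nat.le_of_mul_le_mul_right _ hpos
    calc b * 2 ^ c * 2 ^ (6 + 4 * L + L * (r + 1))
        = b * 2 ^ (6 + 4 * L + L * (r + 1) + c) := by rw [pow_add _ _ c]; ring
      _ ≤ b * 2 ^ (r * r / 6) := Nat.mul_le_mul_left _ (Nat.pow_le_pow_right (by norm_num) e2)
      _ ≤ (16 * r ^ 4 + 1) * (2 * Nat.factorial (r + 1)) * H := hb
      _ ≤ 2 ^ (6 + 4 * L + L * (r + 1)) * H := Nat.mul_le_mul_right _ e1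
      _ = _ := by ring
  have h3 : ((QC r).ncard) * 2 ^ c ≤ 2 * H := by
    calc (QC r).ncard * 2 ^ c ≤ (a + b) * 2 ^ c := Nat.mul_le_mul_right _ hab
      _ = a * 2 ^ c + b * 2 ^ c := by ring
      _ ≤ H + H := Nat.add_le_add h1 h2
      _ = _ := by ring
  have h4 : ((QC r).ncard : ℝ) * 2 ^ c ≤ 2 * (H : ℝ) := by exact_mod_cast h3
  have hp : (0 : ℝ) < 2 ^ c := by positivity
  rcases (Nat.eq_zero_or_pos H) with h0 | h0
  · rw [h0]; simp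
  · have h0' : (0 : ℝ) < H := by exact_mod_cast h0
    rw [div_le_iff₀ h0', one_div, inv_pow]
    rw [← le_div_iff₀ hp] at h4
    calc ((QC r).ncard : ℝ) ≤ 2 * (H : ℝ) / 2 ^ c := h4
      _ = _ := by field_simp

theorem tendsto_ratio :
    Tendsto (fun r : ℕ => ((QC r).ncard : ℝ) / ((HC r).ncard : ℝ)) atTop (𝓝 0) := by
  have h1 : Tendsto (fun r : ℕ => 2 * (1 / 2 : ℝ) ^ (r / 12)) atTop (𝓝 0) := by
    have h2 : Tendsto (fun n : ℕ => 2 * (1 / 2 : ℝ) ^ n) atTop (𝓝 (2 * 0)) :=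
      (tendsto_pow_atTop_nhds_zero_of_lt_one (by norm_num) (by norm_num)).const_mul 2
    rw [mul_zero] at h2
    refine h2.comp ?_
    rw [tendsto_atTop_atTop]
    intro b
    exact ⟨12 * b, fun r hr => by omega⟩
  refine squeeze_zero' (Eventually.of_forall (fun r => by positivity)) ?_ h1
  filter_upwards [ev_big, eventually_ge_atTop (2 ^ 12)] with r hr1 hr2
  exact ratio_bound hr1 hr2

/-- flat form of the axioms -/
def IsHF {r : ℕ} (p : P r) : Prop :=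
  (∃ u : Fin (r+1), u ≠ 0 ∧ ∀ a, p.1 u a = a) ∧
    (∀ a b, p.1 a b = p.1 b a) ∧
    (∀ a b c, p.1 (p.1 a b) c = p.1 a (p.1 b c)) ∧
    (∀ a, p.1 0 a = 0) ∧
    (∀ a b, a ≠ 0 → b ≠ 0 → p.1 a b ≠ 0) ∧
    (∀ a, a ≠ 0 → ∃ b, ∀ c, p.1 (p.1 a b) c = c) ∧
    (∀ a b, (p.2 a b).Nonempty) ∧
    (∀ a b, p.2 a b = p.2 b a) ∧
    (∀ a b c, (⋃ x ∈ p.2 a b, p.2 x c) = ⋃ x ∈ p.2 b c, p.2 a x) ∧
    (∀ a, p.2 0 a = {a}) ∧
    (∀ a, ∃! b, (0 : Fin (r+1)) ∈ p.2 a b) ∧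
    (∀ a b c d, a ∈ p.2 b c → (0 : Fin (r+1)) ∈ p.2 b d → c ∈ p.2 a d) ∧
    (∀ a b c, (fun x => p.1 a x) '' p.2 b c = p.2 (p.1 a b) (p.1 a c))

theorem isHF_iff {r : ℕ} (p : P r) : IsHF p ↔ IsH p := by
  unfold IsHF IsH MulAx AddAx
  simp only [and_assoc]

theorem tendsto_ratio' :
    Tendsto (fun r : ℕ =>
      ((Set.ncard {C : Set (P r) | ∃ p : P r, IsQ p ∧ C = {q | IsQ q ∧ Iso p q}} : ℕ) : ℝ) /
      ((Set.ncard {C : Set (P r) | ∃ p : P r, IsHF p ∧ C = {q | IsHF q ∧ Iso p q}} : ℕ) : ℝ))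
      atTop (𝓝 0) := by
  simp only [isHF_iff]
  exact tendsto_ratio

end Run7.h83.HF
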